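import Pool.Agent.V11247.EqT.Upper

/-!
# From linear data to cheap protocols

Inputs are encoded by integer vectors with prescribed sums of squares, and the players compare the
values of linear forms.
-/

set_option autoImplicit false

namespace Pool.Agent.V11247.EqT

open Filter Topology

variable {V : Type} [DecidableEq V]

/-- The linear forms `e.2.2` compared along the pairs `(e.1, e.2.1)` force equality among vectors with
the same sums of squares over the blocks `N i`. -/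
def Rig {D q : ℕ} (E : List (V × V × (Fin D → ℤ))) (N : Fin q → Finset (Fin D)) : Prop :=
  ∀ (d : ℕ) (t : V → Fin d → Fin D → ℤ),
    (∀ e ∈ E, ∀ j, ∑ k, e.2.2 k * t e.1 j k = ∑ k, e.2.2 k * t e.2.1 j k) →
    (∀ i v w, ∑ j, ∑ k ∈ N i, (t v j k) ^ 2 = ∑ j, ∑ k ∈ N i, (t w j k) ^ 2) →
    ∀ v w, t v = t w

/-- shifted value of a linear form -/
def lval {D : ℕ} (B s : ℕ) (L : Fin D → ℤ) (t : Fin D → Fin (2 ^ s)) : ℕ :=
  (∑ k, L k * ((t k : ℕ) : ℤ) + B * 2 ^ s).toNat

theorem abs_form_le {D : ℕ} (B s : ℕ) (L : Fin D → ℤ) (hL : ∑ k, |L k| ≤ B)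
    (t : Fin D → Fin (2 ^ s)) : |∑ k, L k * ((t k : ℕ) : ℤ)| ≤ B * 2 ^ s := by
  calc |∑ k, L k * ((t k : ℕ) : ℤ)| ≤ ∑ k, |L k * ((t k : ℕ) : ℤ)| := Finset.abs_sum_le_sum_abs _ _
    _ ≤ ∑ k, |L k| * 2 ^ s := by
        refine Finset.sum_le_sum fun k _ => ?_
        rw [abs_mul]
        refine mul_le_mul_of_nonneg_left ?_ (abs_nonneg _)
        rw [abs_of_nonneg (by positivity)]
        have := (t k).2.le
        exact_mod_cast this
    _ = (∑ k, |L k|) * 2 ^ s := by rw [Finset.sum_mul]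
    _ ≤ B * 2 ^ s := mul_le_mul_of_nonneg_right hL (by positivity)

theorem lval_cast {D : ℕ} (B s : ℕ) (L : Fin D → ℤ) (hL : ∑ k, |L k| ≤ B)
    (t : Fin D → Fin (2 ^ s)) :
    (lval B s L t : ℤ) = ∑ k, L k * ((t k : ℕ) : ℤ) + B * 2 ^ s := by
  unfold lval
  rw [Int.toNat_of_nonneg]
  have := (abs_le.1 (abs_form_le B s L hL t)).1
  linarith

theorem lval_lt {D : ℕ} (B s c : ℕ) (hc : 2 * B < 2 ^ c) (L : Fin D → ℤ) (hL : ∑ k, |L k| ≤ B)
    (t : Fin D → Fin (2 ^ s)) : lval B s L t < 2 ^ (s + c) := by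
  have h1 := lval_cast B s L hL t
  have h2 := (abs_le.1 (abs_form_le B s L hL t)).2
  have h3 : (lval B s L t : ℤ) ≤ 2 * B * 2 ^ s := by linarith
  have h4 : (2 * B * 2 ^ s : ℤ) < 2 ^ (s + c) := by
    have h5 : (2 * B : ℤ) < 2 ^ c := by exact_mod_cast hc
    calc (2 * B * 2 ^ s : ℤ) < 2 ^ c * 2 ^ s := by
          exact mul_lt_mul_of_pos_right h5 (by positivity)
      _ = 2 ^ (s + c) := by rw [pow_add]; ring
  have h5 : (lval B s L t : ℤ) < 2 ^ (s + c) := lt_of_le_of_lt h3 h4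
  exact_mod_cast h5

/-- Linear data give cheap protocols for inputs of `n` bits. -/
theorem cost_le {G : SimpleGraph V} {D q : ℕ}
    {E : List (V × V × (Fin D → ℤ))} {N : Fin q → Finset (Fin D)} (hadj : ∀ e ∈ E, G.Adj e.1 e.2.1)
    (hrig : Rig E N) {K : ℕ}
    (hK : ∀ (X : Type) (C : List (Check V X)), (∀ c ∈ C, G.Adj c.src c.dst) →
      (∀ x : V → X, (∀ c ∈ C, c.f (x c.src) = c.f (x c.dst)) → ∀ u v, x u = x v) →
      ∃ P : Protocol V X, DecidesEq G P (C.length + K))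
    {B c : ℕ} (hB : ∀ e ∈ E, ∑ k, |e.2.2 k| ≤ (B : ℤ)) (hc : 2 * B < 2 ^ c)
    (n s d : ℕ) (hn : (d * D * 4 ^ s + 1) ^ q * 2 ^ n ≤ 2 ^ (s * (d * D))) :
    ∃ P : Protocol V (Fin n → Bool), DecidesEq G P (E.length * (d * (s + c)) + K) := by
  classical
  -- pigeonhole
  let A : Type := Fin d → Fin D → Fin (2 ^ s)
  have hval : ∀ (t : A) (i : Fin q), ∑ j, ∑ k ∈ N i, (t j k : ℕ) ^ 2 < d * D * 4 ^ s + 1 := by
    intro t i
    refine Nat.lt_succ_of_le ?_
    calc ∑ j, ∑ k ∈ N i, (t j k : ℕ) ^ 2 ≤ ∑ j : Fin d, ∑ k : Fin D, (t j k : ℕ) ^ 2 :=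
          Finset.sum_le_sum fun j _ =>
            Finset.sum_le_sum_of_subset (Finset.subset_univ _)
      _ ≤ ∑ j : Fin d, ∑ k : Fin D, 4 ^ s := by
          refine Finset.sum_le_sum fun j _ => Finset.sum_le_sum fun k _ => ?_
          have h1 := (t j k).2.le
          calc (t j k : ℕ) ^ 2 ≤ (2 ^ s) ^ 2 := Nat.pow_le_pow_left h1 2
            _ = 4 ^ s := by rw [← pow_mul, mul_comm, pow_mul]; norm_num
      _ = d * D * 4 ^ s := by simp [mul_assoc]
  let φ : A → (Fin q → Fin (d * D * 4 ^ s + 1)) := fun t i => ⟨_, hval t i⟩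
  have hcard : Fintype.card (Fin q → Fin (d * D * 4 ^ s + 1)) * 2 ^ n ≤ Fintype.card A := by
    have h1 : Fintype.card A = 2 ^ (s * (d * D)) := by
      simp only [A, Fintype.card_fun, Fintype.card_fin]
      rw [← pow_mul, ← pow_mul]
      congr 1
      ring
    rw [h1]
    simpa using hn
  obtain ⟨r, hr⟩ := Fintype.exists_le_card_fiber_of_mul_le_card φ hcard
  have hemb : Nonempty ((Fin n → Bool) ↪ {t : A // φ t = r}) := by
    apply Function.Embedding.nonempty_of_card_le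
    rw [Fintype.card_subtype]
    simpa using hr
  obtain ⟨ι⟩ := hemb
  -- the checks
  let C : List (Check V (Fin n → Bool)) :=
    E.flatMap fun e => (List.finRange d).flatMap fun j => (List.range (s + c)).map fun i =>
      ⟨e.1, e.2.1, fun a => (lval B s e.2.2 ((ι a).1 j)).testBit i⟩
  have hlen : C.length = E.length * (d * (s + c)) := by
    simp only [C, List.length_flatMap, List.length_map, List.length_range]
    simp
  have hmem : ∀ e ∈ E, ∀ (j : Fin d) (i : ℕ), i < s + c →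
      (⟨e.1, e.2.1, fun a => (lval B s e.2.2 ((ι a).1 j)).testBit i⟩ :
        Check V (Fin n → Bool)) ∈ C := by
    intro e he j i hi
    simp only [C, List.mem_flatMap, List.mem_map, List.mem_finRange, true_and, List.mem_range]
    exact ⟨e, he, j, i, hi, rfl⟩
  rw [← hlen]
  refine hK _ C ?_ ?_
  · intro ch hch
    simp only [C, List.mem_flatMap, List.mem_map, List.mem_finRange, true_and,
      List.mem_range] at hch
    obtain ⟨e, he, j, i, hi, rfl⟩ := hch
    exact hadj e he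
  · intro x hx u v
    have h1 : ∀ e ∈ E, ∀ j, lval B s e.2.2 ((ι (x e.1)).1 j) = lval B s e.2.2 ((ι (x e.2.1)).1 j) := by
      intro e he j
      apply Nat.eq_of_testBit_eq
      intro i
      by_cases hi : i < s + c
      · exact hx _ (hmem e he j i hi)
      · have h2 := lval_lt B s c hc e.2.2 (hB e he) ((ι (x e.1)).1 j)
        have h3 := lval_lt B s c hc e.2.2 (hB e he) ((ι (x e.2.1)).1 j)
        have h4 : 2 ^ (s + c) ≤ 2 ^ i := Nat.pow_le_pow_right (by norm_num) (not_lt.1 hi)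
        rw [Nat.testBit_lt_two_pow (lt_of_lt_of_le h2 h4),
          Nat.testBit_lt_two_pow (lt_of_lt_of_le h3 h4)]
    have h2 := hrig d (fun v j k => (((ι (x v)).1 j k : ℕ) : ℤ)) ?_ ?_ u v
    · apply ι.injective
      apply Subtype.ext
      funext j k
      have h3 := congrFun (congrFun h2 j) k
      apply Fin.ext
      exact_mod_cast h3
    · intro e he j
      have h3 : (lval B s e.2.2 ((ι (x e.1)).1 j) : ℤ) = lval B s e.2.2 ((ι (x e.2.1)).1 j) := by
        rw [h1 e he j]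
      rw [lval_cast B s _ (hB e he), lval_cast B s _ (hB e he)] at h3
      linarith
    · intro i v w
      have h3 := (ι (x v)).2.trans (ι (x w)).2.symm
      have h4 := congrArg Fin.val (congrFun h3 i)
      simp only [φ] at h4
      exact_mod_cast h4

/-- `(A n + B) ^ q ≤ 2 ^ (δ n)` for large `n`. -/
theorem poly_le_exp (a b : ℝ) (q : ℕ) (δ : ℝ) (hδ : 0 < δ) :
    ∀ᶠ n : ℕ in atTop, (a * n + b) ^ q ≤ (2 : ℝ) ^ (δ * n) := by
  have hr : 1 < (2 : ℝ) ^ δ := Real.one_lt_rpow (by norm_num) hδ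
  have h1 := isLittleO_pow_const_const_pow_of_one_lt (R := ℝ) (k := q) hr
  have h2 : ∀ᶠ n : ℕ in atTop, |a * n + b| ≤ (|a| + |b|) * n := by
    filter_upwards [eventually_ge_atTop 1] with n hn
    have hn' : (1 : ℝ) ≤ n := by exact_mod_cast hn
    calc |a * n + b| ≤ |a * n| + |b| := abs_add_le _ _
      _ = |a| * n + |b| * 1 := by rw [abs_mul, abs_of_nonneg (by positivity : (0 : ℝ) ≤ n), mul_one]
      _ ≤ |a| * n + |b| * n := by
          have := mul_le_mul_of_nonneg_left hn' (abs_nonneg b)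
          linarith
      _ = (|a| + |b|) * n := by ring
  have hc : (0 : ℝ) < ((|a| + |b|) ^ q + 1)⁻¹ := by positivity
  have h3 := h1.def hc
  filter_upwards [h2, h3] with n hn2 hn3
  have h4 : ‖((n : ℝ)) ^ q‖ = (n : ℝ) ^ q := by
    rw [Real.norm_of_nonneg]; positivity
  have h5 : ‖((2 : ℝ) ^ δ) ^ n‖ = (2 : ℝ) ^ (δ * n) := by
    rw [Real.norm_of_nonneg (by positivity), ← Real.rpow_natCast, ← Real.rpow_mul (by norm_num)]
  rw [h4, h5] at hn3
  calc (a * n + b) ^ q ≤ |(a * n + b) ^ q| := le_abs_self _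
    _ = |a * n + b| ^ q := abs_pow _ _
    _ ≤ ((|a| + |b|) * n) ^ q := pow_le_pow_left₀ (abs_nonneg _) hn2 q
    _ = (|a| + |b|) ^ q * (n : ℝ) ^ q := mul_pow _ _ _
    _ ≤ ((|a| + |b|) ^ q + 1) * (n : ℝ) ^ q := by
        have : (0 : ℝ) ≤ (n : ℝ) ^ q := by positivity
        nlinarith
    _ ≤ ((|a| + |b|) ^ q + 1) * (((|a| + |b|) ^ q + 1)⁻¹ * (2 : ℝ) ^ (δ * n)) :=
        mul_le_mul_of_nonneg_left hn3 (by positivity)
    _ = (2 : ℝ) ^ (δ * n) := by
        rw [← mul_assoc, mul_inv_cancel₀ (by positivity), one_mul]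

/-- **Upper bound for the limit.** -/
theorem limit_upper [Fintype V] {G : SimpleGraph V} (hG : G.Connected) {D q : ℕ} (hD : 0 < D)
    {E : List (V × V × (Fin D → ℤ))} {N : Fin q → Finset (Fin D)} (hadj : ∀ e ∈ E, G.Adj e.1 e.2.1)
    (hrig : Rig E N) (ε : ℝ) (hε : 0 < ε) :
    ∀ᶠ n : ℕ in atTop, (eqCost G (Fin n → Bool) : ℝ) ≤ ((E.length : ℝ) / D + ε) * n := by
  classical
  obtain ⟨K, hK⟩ := upper_bound hG
  obtain ⟨B, hB⟩ : ∃ B : ℕ, ∀ e ∈ E, ∑ k, |e.2.2 k| ≤ (B : ℤ) := by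
    clear hadj hrig
    induction E with
    | nil => exact ⟨0, by simp⟩
    | cons e E ih =>
      obtain ⟨B, hB⟩ := ih
      refine ⟨B + (∑ k, |e.2.2 k|).toNat, fun e' he' => ?_⟩
      rcases List.mem_cons.1 he' with rfl | he'
      · push_cast
        have := Int.self_le_toNat (∑ k, |e'.2.2 k|)
        have h2 : (0 : ℤ) ≤ B := by positivity
        linarith
      · have h1 := hB e' he'
        have h2 : (0 : ℤ) ≤ ((∑ k, |e.2.2 k|).toNat : ℤ) := by positivity
        push_cast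
        push_cast at h2
        linarith
  obtain ⟨c, hc⟩ : ∃ c : ℕ, 2 * B < 2 ^ c := ⟨2 * B, Nat.lt_two_pow_self⟩
  set M : ℝ := (E.length : ℝ) with hM
  have hM0 : 0 ≤ M := by positivity
  have hD' : (0 : ℝ) < D := by exact_mod_cast hD
  -- choose s
  obtain ⟨s, hs0, hs⟩ : ∃ s : ℕ, 0 < s ∧ M * c / (s * D) ≤ ε / 4 := by
    obtain ⟨s, hs⟩ := exists_nat_gt (max 1 (M * c / D / (ε / 4)))
    have h1 : (1 : ℝ) < s := lt_of_le_of_lt (le_max_left _ _) hs
    have h2 : M * c / D / (ε / 4) < s := lt_of_le_of_lt (le_max_right _ _) hs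
    refine ⟨s, by exact_mod_cast (by linarith : (0 : ℝ) < s), ?_⟩
    rw [div_lt_iff₀ (by positivity)] at h2
    have h3 : M * c / (s * D) = M * c / D / s := by field_simp
    rw [h3, div_le_iff₀ (by linarith)]
    linarith
  have hs' : (0 : ℝ) < s := by exact_mod_cast hs0
  -- choose δ
  obtain ⟨δ, hδ0, hδ⟩ : ∃ δ : ℝ, 0 < δ ∧ (M / D + ε / 4) * δ ≤ ε / 4 := by
    have hpos : 0 < M / D + ε / 4 := by positivity
    refine ⟨ε / 4 / (M / D + ε / 4), by positivity, ?_⟩
    rw [mul_div_cancel₀ _ hpos.ne']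
  -- the choice of d
  let dd : ℕ → ℕ := fun n => ⌈(1 + δ) * n / (s * D)⌉₊
  have hd1 : ∀ n : ℕ, (1 + δ) * n ≤ s * (dd n * D) := by
    intro n
    have h1 := Nat.le_ceil ((1 + δ) * n / (s * D))
    rw [div_le_iff₀ (by positivity)] at h1
    calc (1 + δ) * n ≤ (⌈(1 + δ) * n / (s * D)⌉₊ : ℝ) * (s * D) := h1
      _ = s * (dd n * D) := by simp only [dd]; ring
  have hd2 : ∀ n : ℕ, (dd n : ℝ) ≤ (1 + δ) * n / (s * D) + 1 := fun n =>
    (Nat.ceil_lt_add_one (by positivity)).le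
  have hpoly := poly_le_exp ((1 + δ) / (s * D) * D * 4 ^ s) (D * 4 ^ s + 1) q δ hδ0
  have hconst : ∀ᶠ n : ℕ in atTop, M * (s + c) + K ≤ ε / 4 * n := by
    obtain ⟨n0, hn0⟩ := exists_nat_gt ((M * (s + c) + K) / (ε / 4))
    filter_upwards [eventually_ge_atTop n0] with n hn
    have h1 : (M * (s + c) + K) / (ε / 4) < n :=
      lt_of_lt_of_le hn0 (by exact_mod_cast hn)
    rw [div_lt_iff₀ (by positivity)] at h1
    linarith
  filter_upwards [hpoly, hconst] with n hn1 hn2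
  have hcond : (dd n * D * 4 ^ s + 1) ^ q * 2 ^ n ≤ 2 ^ (s * (dd n * D)) := by
    have h1 : ((dd n : ℝ) * D * 4 ^ s + 1) ^ q ≤ (2 : ℝ) ^ (δ * n) := by
      refine le_trans (pow_le_pow_left₀ (by positivity) ?_ q) hn1
      have h2 : (dd n : ℝ) * (D * 4 ^ s) ≤ ((1 + δ) * n / (s * D) + 1) * (D * 4 ^ s) :=
        mul_le_mul_of_nonneg_right (hd2 n) (by positivity)
      calc (dd n : ℝ) * D * 4 ^ s + 1 = (dd n : ℝ) * (D * 4 ^ s) + 1 := by ring
        _ ≤ ((1 + δ) * n / (s * D) + 1) * (D * 4 ^ s) + 1 := by linarith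
        _ = (1 + δ) / (s * D) * D * 4 ^ s * n + (D * 4 ^ s + 1) := by ring
    have h2 : ((dd n : ℝ) * D * 4 ^ s + 1) ^ q * 2 ^ n ≤ (2 : ℝ) ^ (s * (dd n * D)) := by
      calc ((dd n : ℝ) * D * 4 ^ s + 1) ^ q * 2 ^ n ≤ (2 : ℝ) ^ (δ * n) * 2 ^ n :=
            mul_le_mul_of_nonneg_right h1 (by positivity)
        _ = (2 : ℝ) ^ ((1 + δ) * n) := by
            rw [← Real.rpow_natCast, ← Real.rpow_add (by norm_num)]
            congr 1
            ring
        _ ≤ (2 : ℝ) ^ ((s : ℝ) * (dd n * D)) :=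
            Real.rpow_le_rpow_of_exponent_le (by norm_num) (hd1 n)
        _ = (2 : ℝ) ^ (s * (dd n * D)) := by
            rw [← Real.rpow_natCast]
            congr 1
            push_cast
            ring
    exact_mod_cast h2
  obtain ⟨P, hP⟩ := cost_le hadj hrig hK hB hc n s (dd n) hcond
  have h1 : eqCost G (Fin n → Bool) ≤ E.length * (dd n * (s + c)) + K := Nat.sInf_le ⟨P, hP⟩
  have h2 : (eqCost G (Fin n → Bool) : ℝ) ≤ M * (dd n * (s + c)) + K := by
    rw [hM]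
    exact_mod_cast h1
  have hn0 : (0 : ℝ) ≤ n := by positivity
  calc (eqCost G (Fin n → Bool) : ℝ) ≤ M * (dd n * (s + c)) + K := h2
    _ ≤ M * (((1 + δ) * n / (s * D) + 1) * (s + c)) + K := by
        have h3 : (dd n : ℝ) * (s + c) ≤ ((1 + δ) * n / (s * D) + 1) * (s + c) :=
          mul_le_mul_of_nonneg_right (hd2 n) (by positivity)
        have := mul_le_mul_of_nonneg_left h3 hM0
        linarith
    _ = (M / D + M * c / (s * D)) * (1 + δ) * n + (M * (s + c) + K) := by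
        field_simp
        ring
    _ ≤ (M / D + ε / 4) * (1 + δ) * n + ε / 4 * n := by
        have h4 : (M / D + M * c / (s * D)) * (1 + δ) * n ≤ (M / D + ε / 4) * (1 + δ) * n := by
          refine mul_le_mul_of_nonneg_right ?_ hn0
          refine mul_le_mul_of_nonneg_right ?_ (by linarith)
          linarith
        linarith
    _ = (M / D + ε / 4 + (M / D + ε / 4) * δ + ε / 4) * n := by ring
    _ ≤ (M / D + ε) * n := by
        refine mul_le_mul_of_nonneg_right ?_ hn0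
        linarith

end Pool.Agent.V11247.EqT
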