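import Pool.Agent.V11247.EqT.Lower
import Pool.Agent.V11247.EqT.TypeClass

/-!
# The limit of the cost per bit
-/

set_option autoImplicit false

namespace Pool.Agent.V11247.EqT

open Filter Topology Finset

variable {V : Type} [DecidableEq V] [Fintype V]

theorem exists_protocol {G : SimpleGraph V} (hG : G.Connected) (n : ℕ) :
    ∃ (c : ℕ) (P : Protocol V (Fin n → Bool)), DecidesEq G P c := by
  classical
  obtain ⟨K, hK⟩ := upper_bound hG
  let C : List (Check V (Fin n → Bool)) :=
    (univ : Finset (V × V)).toList.flatMap fun p => if G.Adj p.1 p.2 then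
      (List.finRange n).map fun i => ⟨p.1, p.2, fun a => a i⟩ else []
  have hC1 : ∀ c ∈ C, G.Adj c.src c.dst := by
    intro c hc
    simp only [C, List.mem_flatMap, Finset.mem_toList, mem_univ, true_and] at hc
    obtain ⟨p, hp⟩ := hc
    split_ifs at hp with h
    · rw [List.mem_map] at hp
      obtain ⟨i, _, rfl⟩ := hp
      exact h
    · simp at hp
  have hC2 : ∀ x : V → (Fin n → Bool), (∀ c ∈ C, c.f (x c.src) = c.f (x c.dst)) →
      ∀ u v, x u = x v := by
    intro x hx u v
    have hadj : ∀ u v, G.Adj u v → x u = x v := by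
      intro u v huv
      funext i
      refine hx ⟨u, v, fun a => a i⟩ ?_
      simp only [C, List.mem_flatMap, Finset.mem_toList, mem_univ, true_and]
      refine ⟨(u, v), ?_⟩
      rw [if_pos huv, List.mem_map]
      exact ⟨i, List.mem_finRange i, rfl⟩
    obtain ⟨p⟩ := hG.preconnected u v
    induction p with
    | nil => rfl
    | cons h p ih => exact (hadj _ _ h).trans ih
  obtain ⟨P, hP⟩ := hK (Fin n → Bool) C hC1 hC2
  exact ⟨_, P, hP⟩

theorem eqCost_spec {G : SimpleGraph V} (hG : G.Connected) (n : ℕ) :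
    ∃ P : Protocol V (Fin n → Bool), DecidesEq G P (eqCost G (Fin n → Bool)) :=
  Nat.sInf_mem (s := {c : ℕ | ∃ P : Protocol V (Fin n → Bool), DecidesEq G P c})
    (exists_protocol hG n)

/-- The lower bound for the cost function. -/
theorem eqCost_ge {G : SimpleGraph V} (hG : G.Connected) (n : ℕ) (g : Finset V → ℝ)
    (hg0 : ∀ S, 0 ≤ g S) (hgc : ∀ S, g S ≠ 0 → S.Nonempty ∧ S ≠ univ)
    (hpack : ∀ u v, G.Adj u v → ∑ S : Finset V, (if (u ∈ S ↔ v ∈ S) then 0 else g S) ≤ 1) :
    (∑ S : Finset V, g S) * n ≤ eqCost G (Fin n → Bool) := by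
  obtain ⟨P, hP⟩ := eqCost_spec hG n
  have h1 := lower_bound hP g hg0 hgc hpack
  have h2 : Real.log (Fintype.card (Fin n → Bool)) = n * Real.log 2 := by
    simp [Real.log_pow]
  rw [h2] at h1
  have h3 : 0 < Real.log 2 := Real.log_pos (by norm_num)
  have h4 : ((∑ S : Finset V, g S) * n) * Real.log 2 ≤
      (eqCost G (Fin n → Bool)) * Real.log 2 := by linarith
  exact le_of_mul_le_mul_right h4 h3

/-- Squeeze. -/
theorem tendsto_of_bounds {G : SimpleGraph V} {F : ℝ}
    (hlow : ∀ n : ℕ, F * n ≤ eqCost G (Fin n → Bool))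
    (hup : ∀ ε : ℝ, 0 < ε → ∀ᶠ n : ℕ in atTop, (eqCost G (Fin n → Bool) : ℝ) ≤ (F + ε) * n) :
    Tendsto (fun n : ℕ => (eqCost G (Fin n → Bool) : ℝ) / n) atTop (𝓝 F) := by
  rw [Metric.tendsto_atTop]
  intro ε hε
  have h1 := hup (ε / 2) (by positivity)
  obtain ⟨N, hN⟩ := eventually_atTop.1 h1
  refine ⟨max N 1, fun n hn => ?_⟩
  have hn1 : N ≤ n := le_trans (le_max_left _ _) hn
  have hn2 : 1 ≤ n := le_trans (le_max_right _ _) hn
  have hn3 : (0 : ℝ) < n := by exact_mod_cast hn2
  have h2 := hN n hn1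
  have h3 := hlow n
  rw [Real.dist_eq, abs_lt]
  constructor
  · have : F ≤ (eqCost G (Fin n → Bool) : ℝ) / n := by
      rw [le_div_iff₀ hn3]; exact h3
    linarith
  · have : (eqCost G (Fin n → Bool) : ℝ) / n ≤ F + ε / 2 := by
      rw [div_le_iff₀ hn3]; exact h2
    linarith

/-- Vectors of the same norm, one of which is the average of the others. -/
theorem conv {d : ℕ} (r : V) (c : V → ℤ) (hc : ∀ v, v ≠ r → 0 < c v) (a : V → Fin d → ℤ)
    (hn : ∀ v, ∑ j, (a v j) ^ 2 = ∑ j, (a r j) ^ 2)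
    (hs : ∀ j, ∑ v, c v * (a v j - a r j) = 0) : ∀ v, a v = a r := by
  have h1 : ∑ v, c v * ∑ j, (a v j - a r j) ^ 2 = 0 := by
    have h2 : ∀ v, ∑ j, (a v j - a r j) ^ 2 = ∑ j, (-2 * a r j) * (a v j - a r j) := by
      intro v
      have h3 : ∑ j, (a v j - a r j) ^ 2 = ∑ j, (a v j) ^ 2 - ∑ j, (a r j) ^ 2 +
          ∑ j, (-2 * a r j) * (a v j - a r j) := by
        rw [← Finset.sum_sub_distrib, ← Finset.sum_add_distrib]
        exact Finset.sum_congr rfl fun j _ => by ring
      rw [h3, hn v]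
      ring
    simp only [h2, Finset.mul_sum]
    rw [Finset.sum_comm]
    refine Finset.sum_eq_zero fun j _ => ?_
    have h4 : ∀ v, c v * (-2 * a r j * (a v j - a r j)) =
        (-2 * a r j) * (c v * (a v j - a r j)) := fun v => by ring
    simp only [h4]
    rw [← Finset.mul_sum, hs j, mul_zero]
  have h5 : ∀ v, 0 ≤ c v * ∑ j, (a v j - a r j) ^ 2 := by
    intro v
    by_cases hv : v = r
    · subst hv; simp
    · exact mul_nonneg (hc v hv).le (Finset.sum_nonneg fun j _ => sq_nonneg _)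
  intro v
  by_cases hv : v = r
  · rw [hv]
  · have h6 := (Finset.sum_eq_zero_iff_of_nonneg fun v _ => h5 v).1 h1 v (mem_univ v)
    have h7 : ∑ j, (a v j - a r j) ^ 2 = 0 := by
      rcases mul_eq_zero.1 h6 with h | h
      · exact absurd h (hc v hv).ne'
      · exact h
    funext j
    have h8 := (Finset.sum_eq_zero_iff_of_nonneg fun j _ => sq_nonneg (a v j - a r j)).1 h7 j
      (mem_univ j)
    have h9 : a v j - a r j = 0 := by simpa using h8
    linarith

end Pool.Agent.V11247.EqT
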