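import Pool.Agent.V11247.EqT.PRate

/-!
# Two-edge-connected spanning subgraphs, and Hamiltonicity, for the Petersen graph
-/

set_option autoImplicit false

namespace Pool.Agent.V11247.EqT

open Finset

/-- The pair `e` joins `S` to its complement. -/
def Crosses {V : Type} (S : Finset V) (e : Sym2 V) : Prop := ∃ u ∈ S, ∃ v ∉ S, e = s(u, v)

open Classical in
/-- `m` gives the multiplicities (at most two) of the edges of a spanning subgraph of `G`, and every
cut contains at least two edges of it: the subgraph is 2-edge-connected. -/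
def IsTwoConn {V : Type} [Fintype V] (G : SimpleGraph V) (m : Sym2 V → ℕ) : Prop :=
  (∀ e, m e ≤ 2) ∧ (∀ e, e ∉ G.edgeSet → m e = 0) ∧
    ∀ S : Finset V, S.Nonempty → S ≠ univ → 2 ≤ ∑ e : Sym2 V, if Crosses S e then m e else 0

open Classical in
/-- The least number of edges, with multiplicity, of a 2-edge-connected spanning subgraph of `G` that
may use edges of `G` twice. -/
noncomputable def c2 {V : Type} [Fintype V] (G : SimpleGraph V) : ℕ :=
  sInf {c : ℕ | ∃ m : Sym2 V → ℕ, IsTwoConn G m ∧ c = ∑ e : Sym2 V, m e}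

theorem crosses_mk {V : Type} (S : Finset V) (u v : V) :
    Crosses S s(u, v) ↔ ¬ (u ∈ S ↔ v ∈ S) := by
  constructor
  · rintro ⟨a, ha, b, hb, hab⟩
    rw [Sym2.eq_iff] at hab
    rcases hab with ⟨rfl, rfl⟩ | ⟨rfl, rfl⟩
    · simp [ha, hb]
    · simp [ha, hb]
  · intro h
    by_cases hu : u ∈ S
    · exact ⟨u, hu, v, fun hv => h (by simp [hu, hv]), rfl⟩
    · have hv : v ∈ S := by
        by_contra hv
        exact h (by simp [hu, hv])
      exact ⟨v, hv, u, hu, Sym2.eq_swap⟩

/-- tails of the edges -/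
def pu : Fin 15 → Fin 10 := fun i => (petersenEdges.get (i.cast rfl)).1
/-- heads of the edges -/
def pv : Fin 15 → Fin 10 := fun i => (petersenEdges.get (i.cast rfl)).2

theorem pe_inj : Function.Injective fun i : Fin 15 => s(pu i, pv i) := by decide

theorem pe_surj (e : Sym2 (Fin 10)) (he : e ∈ petersen.edgeSet) : ∃ i : Fin 15, s(pu i, pv i) = e := by
  induction e with
  | _ u v =>
    rw [SimpleGraph.mem_edgeSet] at he
    revert u v
    decide

theorem pe_mem (i : Fin 15) : petersen.Adj (pu i) (pv i) := by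
  revert i; decide

theorem sum_edges {inst : Fintype (Sym2 (Fin 10))} (F : Sym2 (Fin 10) → ℕ) (hF : ∀ e, e ∉ petersen.edgeSet → F e = 0) :
    ∑ e, F e = ∑ i : Fin 15, F s(pu i, pv i) := by
  classical
  have h1 : ∑ i : Fin 15, F s(pu i, pv i) =
      ∑ e ∈ (univ : Finset (Fin 15)).image (fun i => s(pu i, pv i)), F e := by
    rw [Finset.sum_image]
    intro i _ j _ h
    exact pe_inj h
  rw [h1]
  symm
  apply Finset.sum_subset (Finset.subset_univ _)
  intro e _ he
  apply hF
  intro hmem
  obtain ⟨i, hi⟩ := pe_surj e hmem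
  exact he (by rw [Finset.mem_image]; exact ⟨i, mem_univ i, hi⟩)

theorem aux10 {D0 D1 D2 D3 D4 D5 D6 D7 D8 D9 : ℕ} (h0 : 2 ≤ D0) (h1 : 2 ≤ D1) (h2 : 2 ≤ D2)
    (h3 : 2 ≤ D3) (h4 : 2 ≤ D4) (h5 : 2 ≤ D5) (h6 : 2 ≤ D6) (h7 : 2 ≤ D7) (h8 : 2 ≤ D8)
    (h9 : 2 ≤ D9) (h : D0 + D1 + D2 + D3 + D4 + D5 + D6 + D7 + D8 + D9 ≤ 20) :
    D0 = 2 ∧ D1 = 2 ∧ D2 = 2 ∧ D3 = 2 ∧ D4 = 2 ∧ D5 = 2 ∧ D6 = 2 ∧ D7 = 2 ∧ D8 = 2 ∧ D9 = 2 := by
  omega

/-- No multiplicities with total at most ten satisfy the cut conditions. -/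
theorem no_ten (a : Fin 15 → ℕ) (hS : ∀ S : Finset (Fin 10), S.Nonempty → S ≠ univ →
    2 ≤ ∑ i : Fin 15, if (pu i ∈ S ↔ pv i ∈ S) then 0 else a i) : 11 ≤ ∑ i, a i := by
  have g0 := hS {0} (by decide) (by decide)
  have g1 := hS {1} (by decide) (by decide)
  have g2 := hS {2} (by decide) (by decide)
  have g3 := hS {3} (by decide) (by decide)
  have g4 := hS {4} (by decide) (by decide)
  have g5 := hS {5} (by decide) (by decide)
  have g6 := hS {6} (by decide) (by decide)
  have g7 := hS {7} (by decide) (by decide)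
  have g8 := hS {8} (by decide) (by decide)
  have g9 := hS {9} (by decide) (by decide)
  have f0 := hS {0, 1, 2, 3, 4} (by decide) (by decide)
  have f1 := hS {0, 1, 4, 6, 9} (by decide) (by decide)
  have f2 := hS {1, 2, 0, 7, 5} (by decide) (by decide)
  have f3 := hS {2, 3, 1, 8, 6} (by decide) (by decide)
  have f4 := hS {3, 4, 2, 9, 7} (by decide) (by decide)
  have f5 := hS {4, 0, 3, 5, 8} (by decide) (by decide)
  have p0 := hS {0, 1} (by decide) (by decide)
  have p1 := hS {0, 5} (by decide) (by decide)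
  have p2 := hS {5, 7} (by decide) (by decide)
  have p3 := hS {1, 2} (by decide) (by decide)
  have p4 := hS {1, 6} (by decide) (by decide)
  have p5 := hS {6, 8} (by decide) (by decide)
  have p6 := hS {2, 3} (by decide) (by decide)
  have p7 := hS {2, 7} (by decide) (by decide)
  have p8 := hS {7, 9} (by decide) (by decide)
  have p9 := hS {3, 4} (by decide) (by decide)
  have p10 := hS {3, 8} (by decide) (by decide)
  have p11 := hS {8, 5} (by decide) (by decide)
  have p12 := hS {4, 0} (by decide) (by decide)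
  have p13 := hS {4, 9} (by decide) (by decide)
  have p14 := hS {9, 6} (by decide) (by decide)
  clear hS
  simp [Fin.sum_univ_succ, pu, pv, petersenEdges] at *
  generalize a 0 = x0 at *
  generalize a 1 = x1 at *
  generalize a 2 = x2 at *
  generalize a 3 = x3 at *
  generalize a 4 = x4 at *
  generalize a 5 = x5 at *
  generalize a 6 = x6 at *
  generalize a 7 = x7 at *
  generalize a 8 = x8 at *
  generalize a 9 = x9 at *
  generalize a 10 = x10 at *
  generalize a 11 = x11 at *
  generalize a 12 = x12 at *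
  generalize a 13 = x13 at *
  generalize a 14 = x14 at *
  by_contra hcon
  have hcon' : (x0 + (x1 + x12)) + (x0 + (x3 + x4)) + (x3 + (x6 + x7)) + (x6 + (x9 + x10)) + (x9 + (x12 + x13)) + (x1 + (x2 + x11)) + (x4 + (x5 + x14)) + (x2 + (x7 + x8)) + (x5 + (x10 + x11)) + (x8 + (x13 + x14)) ≤ 20 := by
    clear g0 g1 g2 g3 g4 g5 g6 g7 g8 g9 f0 f1 f2 f3 f4 f5 p0 p1 p2 p3 p4 p5 p6 p7 p8 p9 p10 p11 p12 p13 p14
    omega
  obtain ⟨d0, d1, d2, d3, d4, d5, d6, d7, d8, d9⟩ := aux10 g0 g1 g2 g3 g4 g5 g6 g7 g8 g9 hcon'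
  clear hcon hcon' g0 g1 g2 g3 g4 g5 g6 g7 g8 g9
  have b1 : x1 ≤ 1 := by clear * - p1 d0 d5; omega
  have h1 : x1 = 0 ∨ x1 = 1 := Nat.le_one_iff_eq_zero_or_eq_one.1 b1
  have b4 : x4 ≤ 1 := by clear * - p4 d1 d6; omega
  have h4 : x4 = 0 ∨ x4 = 1 := Nat.le_one_iff_eq_zero_or_eq_one.1 b4
  have b7 : x7 ≤ 1 := by clear * - p7 d2 d7; omega
  have h7 : x7 = 0 ∨ x7 = 1 := Nat.le_one_iff_eq_zero_or_eq_one.1 b7
  have b10 : x10 ≤ 1 := by clear * - p10 d3 d8; omega
  have h10 : x10 = 0 ∨ x10 = 1 := Nat.le_one_iff_eq_zero_or_eq_one.1 b10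
  have b13 : x13 ≤ 1 := by clear * - p13 d4 d9; omega
  have h13 : x13 = 0 ∨ x13 = 1 := Nat.le_one_iff_eq_zero_or_eq_one.1 b13
  have b0 : x0 ≤ 1 := by clear * - p0 d0 d1; omega
  have b2 : x2 ≤ 1 := by clear * - p2 d5 d7; omega
  have b3 : x3 ≤ 1 := by clear * - p3 d1 d2; omega
  have b5 : x5 ≤ 1 := by clear * - p5 d6 d8; omega
  have b6 : x6 ≤ 1 := by clear * - p6 d2 d3; omega
  have b8 : x8 ≤ 1 := by clear * - p8 d7 d9; omega
  have b9 : x9 ≤ 1 := by clear * - p9 d3 d4; omega
  have b11 : x11 ≤ 1 := by clear * - p11 d8 d5; omega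
  have b12 : x12 ≤ 1 := by clear * - p12 d4 d0; omega
  have b14 : x14 ≤ 1 := by clear * - p14 d9 d6; omega
  clear p0 p1 p2 p3 p4 p5 p6 p7 p8 p9 p10 p11 p12 p13 p14
  rcases h1 with rfl | rfl <;> rcases h4 with rfl | rfl <;> rcases h7 with rfl | rfl <;>
    rcases h10 with rfl | rfl <;> rcases h13 with rfl | rfl <;> omega

/-- The Petersen graph has no 2-edge-connected spanning subgraph with fewer than eleven edges. -/
theorem eleven_le {inst : Fintype (Sym2 (Fin 10))} {m : Sym2 (Fin 10) → ℕ} (h0 : ∀ e, e ∉ petersen.edgeSet → m e = 0)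
    (hS : ∀ S : Finset (Fin 10), S.Nonempty → S ≠ univ → 2 ≤ ∑ e : Sym2 (Fin 10),
      @ite _ (Crosses S e) (Classical.propDecidable _) (m e) 0) : 11 ≤ ∑ e, m e := by
  classical
  rw [sum_edges m h0]
  apply no_ten
  intro S h1 h2
  refine (hS S h1 h2).trans (le_of_eq ?_)
  rw [sum_edges]
  · refine Finset.sum_congr rfl fun i _ => ?_
    by_cases h : (pu i ∈ S ↔ pv i ∈ S)
    · rw [if_pos h, if_neg]
      rw [crosses_mk]
      exact fun h' => h' h
    · rw [if_neg h, if_pos]
      rw [crosses_mk]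
      exact h
  · intro e he
    rw [h0 e he]
    split_ifs <;> rfl

theorem twoConn_all {V : Type} [Fintype V] {G : SimpleGraph V} (hG : G.Connected) :
    ∃ m, IsTwoConn G m := by
  classical
  refine ⟨fun e => if e ∈ G.edgeSet then 2 else 0, ?_, ?_, ?_⟩
  · intro e
    dsimp only
    split_ifs <;> norm_num
  · intro e he
    simp [he]
  · intro S hS1 hS2
    obtain ⟨a, ha⟩ := hS1
    obtain ⟨b, hb⟩ : ∃ b, b ∉ S := by
      by_contra hcon
      push Not at hcon
      exact hS2 (Finset.eq_univ_iff_forall.2 hcon)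
    have key : ∀ (u v : V) (p : G.Walk u v), u ∈ S → v ∉ S → ∃ x y, G.Adj x y ∧ x ∈ S ∧ y ∉ S := by
      intro u v p
      induction p with
      | nil => intro h1 h2; exact absurd h1 h2
      | @cons x y z hxy p ih =>
        intro h1 h2
        by_cases hy : y ∈ S
        · exact ih hy h2
        · exact ⟨x, y, hxy, h1, hy⟩
    obtain ⟨p⟩ := hG.preconnected a b
    obtain ⟨x, y, hxy, hx, hy⟩ := key a b p ha hb
    have h1 : (if Crosses S s(x, y) then (if s(x, y) ∈ G.edgeSet then 2 else 0) else 0) = 2 := by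
      rw [if_pos ⟨x, hx, y, hy, rfl⟩, if_pos (show s(x, y) ∈ G.edgeSet from hxy)]
    have h2 := Finset.single_le_sum (f := fun e => if Crosses S e then
      (if e ∈ G.edgeSet then 2 else 0) else 0) (fun _ _ => Nat.zero_le _) (mem_univ s(x, y))
    exact h1.symm.le.trans h2

theorem le_c2 {V : Type} [Fintype V] {G : SimpleGraph V} (hG : G.Connected) (k : ℕ)
    (h : ∀ (inst : Fintype (Sym2 V)) (m : Sym2 V → ℕ), IsTwoConn G m → k ≤ ∑ e, m e) :
    k ≤ c2 G := by
  classical
  obtain ⟨m, hm⟩ := twoConn_all hG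
  unfold c2
  refine le_csInf ⟨_, m, hm, rfl⟩ ?_
  rintro c ⟨m, hm, rfl⟩
  exact h _ m hm

theorem eleven_le' (inst : Fintype (Sym2 (Fin 10))) (m : Sym2 (Fin 10) → ℕ)
    (hm : IsTwoConn petersen m) : 11 ≤ ∑ e, m e := by
  refine eleven_le hm.2.1 fun S h1 h2 => ?_
  have h3 := hm.2.2 S h1 h2
  refine h3.trans (le_of_eq ?_)
  refine Finset.sum_congr ?_ fun _ _ => rfl
  ext e
  simp only [mem_univ]

theorem eleven_le_c2 : 11 ≤ c2 petersen := le_c2 petersen_connected 11 eleven_le'

/-! ### Hamiltonian cycles -/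

section Ham

variable {V : Type} {G : SimpleGraph V}

open Classical in
theorem walk_parity (S : Finset V) {u v : V} (p : G.Walk u v) :
    (p.edges.countP fun e => decide (Crosses S e)) % 2 = if (u ∈ S ↔ v ∈ S) then 0 else 1 := by
  induction p with
  | nil => simp
  | @cons a b c h p ih =>
    rw [SimpleGraph.Walk.edges_cons, List.countP_cons]
    have h1 : decide (Crosses S s(a, b)) = !decide (a ∈ S ↔ b ∈ S) := by
      rw [← decide_not]
      exact decide_eq_decide.2 (crosses_mk S a b)
    rw [h1]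
    by_cases ha : a ∈ S <;> by_cases hb : b ∈ S <;> by_cases hc : c ∈ S <;>
      simp [ha, hb, hc] at ih ⊢ <;> omega

open Classical in
theorem walk_pos (S : Finset V) {u v w : V} (p : G.Walk u v) (hw : w ∈ p.support)
    (huw : ¬ (u ∈ S ↔ w ∈ S)) : 0 < p.edges.countP fun e => decide (Crosses S e) := by
  induction p with
  | nil =>
    simp only [SimpleGraph.Walk.support_nil, List.mem_singleton] at hw
    subst hw
    exact absurd Iff.rfl huw
  | @cons a b c h p ih =>
    rw [SimpleGraph.Walk.support_cons, List.mem_cons] at hw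
    rw [SimpleGraph.Walk.edges_cons, List.countP_cons]
    rcases hw with rfl | hw
    · exact absurd Iff.rfl huw
    · by_cases hab : (a ∈ S ↔ b ∈ S)
      · have := ih hw (by rw [← hab]; exact huw)
        omega
      · have h1 : decide (Crosses S s(a, b)) = true := by
          rw [decide_eq_true_eq, crosses_mk]
          exact hab
        simp [h1]

open Classical in
/-- A closed walk without repeated edges through all vertices crosses every cut twice. -/
theorem closed_two [Fintype V] (S : Finset V) (hS1 : S.Nonempty) (hS2 : S ≠ univ) {a : V}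
    (p : G.Walk a a) (hp : ∀ w, w ∈ p.support) :
    2 ≤ p.edges.countP fun e => decide (Crosses S e) := by
  obtain ⟨x, hx⟩ := hS1
  obtain ⟨y, hy⟩ : ∃ b, b ∉ S := by
    by_contra hcon
    push Not at hcon
    exact hS2 (Finset.eq_univ_iff_forall.2 hcon)
  have h1 := walk_parity S p
  simp only [if_true] at h1
  have h2 : 0 < p.edges.countP fun e => decide (Crosses S e) := by
    by_cases ha : a ∈ S
    · exact walk_pos S p (hp y) (by simp [ha, hy])
    · exact walk_pos S p (hp x) (by simp [ha, hx])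
  omega

end Ham

theorem petersen_not_hamiltonian : ¬ petersen.IsHamiltonian := by
  classical
  intro h
  obtain ⟨a, p, hp⟩ := h (by simp)
  have hsupp : ∀ w, w ∈ p.support := fun w => hp.mem_support w
  have hnd : p.edges.Nodup := hp.isCycle.isCircuit.isTrail.edges_nodup
  have hlen : p.length = 10 := by
    have := hp.length_eq
    simpa using this
  let m : Sym2 (Fin 10) → ℕ := fun e => if e ∈ p.edges then 1 else 0
  have hsum : ∀ q : Sym2 (Fin 10) → Prop, (∑ e, if q e then m e else 0) =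
      p.edges.countP fun e => decide (q e) := by
    intro q
    have h1 : (∑ e, if q e then m e else 0) = ∑ e, if (e ∈ p.edges ∧ q e) then 1 else 0 := by
      refine Finset.sum_congr rfl fun e _ => ?_
      simp only [m]
      by_cases hq : q e <;> by_cases he : e ∈ p.edges <;> simp [hq, he]
    rw [h1, ← Finset.card_filter, List.countP_eq_length_filter]
    have h2 : (univ.filter fun e => e ∈ p.edges ∧ q e) = (p.edges.filter fun e => decide (q e)).toFinset := by
      ext e
      simp
    rw [h2, List.toFinset_card_of_nodup (hnd.filter _)]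
  have h11 : 11 ≤ ∑ e, m e := by
    refine eleven_le ?_ ?_
    · intro e he
      simp only [m]
      rw [if_neg]
      intro h'
      exact he (p.edges_subset_edgeSet h')
    · intro S h1 h2
      have h3 := closed_two S h1 h2 p hsupp
      rw [← hsum] at h3
      exact h3
  have h10 : ∑ e, m e = 10 := by
    have h1 := hsum fun _ => True
    simp only [if_true, decide_true, List.countP_true] at h1
    rw [h1, SimpleGraph.Walk.length_edges, hlen]
  omega

end Pool.Agent.V11247.EqT
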