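import Pool.Agent.V11247.EqT.Model

/-!
# Lower bound: fractional packings of cuts
-/

set_option autoImplicit false

namespace Pool.Agent.V11247.EqT

open Finset

variable {V X : Type} [DecidableEq V] [Fintype V] [Fintype X] {G : SimpleGraph V}
  {P : Protocol V X} {c : ℕ}

/-- The number of elements of a set of binary labellings with prescribed values at some places. -/
theorem card_prescribed {I : Type} [Fintype I] [DecidableEq I] (q : I → Prop) [DecidablePred q]
    (val : I → Bool) :
    (Fintype.piFinset fun i : I => if q i then {val i} else (Finset.univ : Finset Bool)).card =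
      2 ^ (Finset.univ.filter fun i => ¬ q i).card := by
  rw [Fintype.card_piFinset]
  have : ∀ i : I, (if q i then {val i} else (Finset.univ : Finset Bool)).card =
      if q i then 1 else 2 := by
    intro i
    split_ifs <;> simp
  simp only [this]
  rw [Finset.prod_ite]
  simp

/-- Number of bits that cross the cut. -/
def cutLen (L : V → V → ℕ) (S : Finset V) : ℕ :=
  ∑ u, ∑ v, if (u ∈ S ↔ v ∈ S) then 0 else L u v

/-- **Kraft inequality for a cut.** -/
theorem kraft [DecidableEq X] (hP : DecidesEq G P c) {S : Finset V} (hS : S.Nonempty)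
    (hS' : S ≠ univ)
    (m : X → ℕ) (h : X → V → List (Ev V)) (hm : ∀ a, m a ≤ c)
    (hr : ∀ a, Run G P (fun _ => a) (m a) (h a))
    (hh : ∀ a v, P v a (h a v) = Act.halt true) :
    ∑ a : X, ((2 : ℝ) ^ (cutLen (fun u v => (sentTo v (h a u)).length) S))⁻¹ ≤ 1 := by
  classical
  let L : X → V → V → ℕ := fun a u v => (sentTo v (h a u)).length
  let Q : X → (V × V × Fin c) → Prop := fun a i =>
    ¬ (i.1 ∈ S ↔ i.2.1 ∈ S) ∧ (i.2.2 : ℕ) < L a i.1 i.2.1
  let val : X → (V × V × Fin c) → Bool := fun a i =>
    ((sentTo i.2.1 (h a i.1))[(i.2.2 : ℕ)]?).getD false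
  let A : X → Finset (V × V × Fin c → Bool) := fun a =>
    Fintype.piFinset fun i => if Q a i then {val a i} else (Finset.univ : Finset Bool)
  have hLc : ∀ a u v, L a u v ≤ c := by
    intro a u v
    calc L a u v ≤ ∑ v, L a u v := Finset.single_le_sum (fun _ _ => Nat.zero_le _) (mem_univ v)
      _ ≤ ∑ u, ∑ v, L a u v :=
        Finset.single_le_sum (f := fun u => ∑ v, L a u v) (fun _ _ => Nat.zero_le _) (mem_univ u)
      _ = m a := ((hr a).count).symm
      _ ≤ c := hm a
  -- the sets are disjoint
  have hdisj : ∀ a ∈ (univ : Finset X), ∀ b ∈ (univ : Finset X), a ≠ b → Disjoint (A a) (A b) := by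
    intro a _ b _ hab
    rw [Finset.disjoint_left]
    intro R hRa hRb
    rw [Fintype.mem_piFinset] at hRa hRb
    obtain ⟨mz, hz, _, rz, hz'⟩ := hP (fun v => if v ∈ (S : Set V) then a else b)
    have hcomp : ∀ u v, ¬ (u ∈ (S : Set V) ↔ v ∈ (S : Set V)) → ∀ (i : ℕ) (s t : Bool),
        (sentTo v (h a u))[i]? = some s → (sentTo v (h b u))[i]? = some t → s = t := by
      intro u v huv i s t hs ht
      have hia : i < L a u v := by
        by_contra hcon
        rw [List.getElem?_eq_none (not_lt.1 hcon)] at hs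
        cases hs
      have hib : i < L b u v := by
        by_contra hcon
        rw [List.getElem?_eq_none (not_lt.1 hcon)] at ht
        cases ht
      have hic : i < c := lt_of_lt_of_le hia (hLc a u v)
      have h1 := hRa (u, v, ⟨i, hic⟩)
      have h2 := hRb (u, v, ⟨i, hic⟩)
      have hQa : Q a (u, v, ⟨i, hic⟩) := ⟨huv, hia⟩
      have hQb : Q b (u, v, ⟨i, hic⟩) := ⟨huv, hib⟩
      rw [if_pos hQa, mem_singleton] at h1
      rw [if_pos hQb, mem_singleton] at h2
      have h3 : val a (u, v, ⟨i, hic⟩) = s := by simp only [val, hs, Option.getD_some]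
      have h4 : val b (u, v, ⟨i, hic⟩) = t := by simp only [val, ht, Option.getD_some]
      rw [← h3, ← h4, ← h1, ← h2]
    have hmix := mixed (S := (S : Set V)) (hr a) (hr b) rz (hh a) (hh b) hcomp
    obtain ⟨u, hu⟩ := hS
    obtain ⟨w, hw⟩ : ∃ w, w ∉ S := by
      by_contra hcon
      push Not at hcon
      exact hS' (Finset.eq_univ_iff_forall.2 hcon)
    obtain ⟨ans, hans, hans'⟩ := hz' u
    have hu' : u ∈ (S : Set V) := by exact_mod_cast hu
    have hw' : w ∉ (S : Set V) := by exact_mod_cast hw
    have h1 := hmix u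
    simp only [hu', if_true] at h1 hans
    have h2 : hz u = h a u := eq_of_halt ((hr a).follows u) h1 hans
    rw [h2, hh a u] at hans
    have h3 : ans = true := by
      cases hans; rfl
    have h4 := hans'.1 h3 u w
    simp only [hu', hw', if_true, if_false] at h4
    exact hab h4
  -- count
  have hcard : ∀ a, (A a).card = 2 ^ (Finset.univ.filter fun i => ¬ Q a i).card := fun a =>
    card_prescribed _ _
  have hQcard : ∀ a, (Finset.univ.filter fun i => Q a i).card = cutLen (L a) S := by
    intro a
    have h1 : (Finset.univ.filter fun i => Q a i).card =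
        ∑ i : V × V × Fin c, if Q a i then 1 else 0 := by
      rw [Finset.card_filter]
    rw [h1, Fintype.sum_prod_type, cutLen]
    refine Finset.sum_congr rfl fun u _ => ?_
    rw [Fintype.sum_prod_type]
    refine Finset.sum_congr rfl fun v _ => ?_
    by_cases huv : (u ∈ S ↔ v ∈ S)
    · rw [if_pos huv]
      refine Finset.sum_eq_zero fun i _ => ?_
      rw [if_neg]
      rintro ⟨h2, _⟩
      exact h2 huv
    · rw [if_neg huv]
      have h2 : ∀ i : Fin c, (if Q a (u, v, i) then 1 else 0) = if (i : ℕ) < L a u v then 1 else 0 := by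
        intro i
        by_cases hi : (i : ℕ) < L a u v
        · rw [if_pos hi, if_pos ⟨huv, hi⟩]
        · rw [if_neg hi, if_neg (fun hq => hi hq.2)]
      simp only [h2]
      rw [← Finset.card_filter]
      have h3 : (Finset.univ.filter fun i : Fin c => (i : ℕ) < L a u v).card = L a u v := by
        have := hLc a u v
        rw [Fin.card_filter_val_lt]
        omega
      exact h3
  have hsum : ∑ a : X, (A a).card ≤ 2 ^ (Fintype.card (V × V × Fin c)) := by
    rw [← Finset.card_biUnion hdisj]
    refine (Finset.card_le_univ _).trans ?_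
    rw [Fintype.card_fun]
    simp
  have hM : ∀ a, (Finset.univ.filter fun i => ¬ Q a i).card + cutLen (L a) S =
      Fintype.card (V × V × Fin c) := by
    intro a
    rw [← hQcard a, add_comm]
    rw [← Finset.card_univ]
    exact Finset.card_filter_add_card_filter_not (s := univ) (Q a)
  set M := Fintype.card (V × V × Fin c) with hMdef
  have h1 : ∀ a, ((2 : ℝ) ^ (cutLen (L a) S))⁻¹ = ((A a).card : ℝ) / 2 ^ M := by
    intro a
    rw [hcard a, ← hM a, pow_add]
    push_cast
    field_simp
  have h2 : ∑ a : X, ((A a).card : ℝ) ≤ 2 ^ M := by exact_mod_cast hsum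
  calc ∑ a : X, ((2 : ℝ) ^ (cutLen (fun u v => (sentTo v (h a u)).length) S))⁻¹
      = ∑ a : X, ((A a).card : ℝ) / 2 ^ M := Finset.sum_congr rfl fun a _ => h1 a
    _ = (∑ a : X, ((A a).card : ℝ)) / 2 ^ M := by rw [Finset.sum_div]
    _ ≤ 1 := by
      rw [div_le_one (by positivity)]
      exact h2

/-- From Kraft's inequality to the average length. -/
theorem avg_of_kraft [Nonempty X] (len : X → ℕ)
    (hk : ∑ a : X, ((2 : ℝ) ^ (len a))⁻¹ ≤ 1) :
    (Fintype.card X : ℝ) * Real.log (Fintype.card X) ≤ Real.log 2 * ∑ a : X, (len a : ℝ) := by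
  have hN : (0 : ℝ) < Fintype.card X := by exact_mod_cast Fintype.card_pos
  have h1 : ∀ a : X, (Fintype.card X : ℝ)⁻¹ *
      (1 + (Real.log (Fintype.card X) - (len a : ℝ) * Real.log 2)) ≤ ((2 : ℝ) ^ (len a))⁻¹ := by
    intro a
    have h2 : ((2 : ℝ) ^ (len a))⁻¹ = (Fintype.card X : ℝ)⁻¹ *
        Real.exp (Real.log (Fintype.card X) - (len a : ℝ) * Real.log 2) := by
      rw [Real.exp_sub, Real.exp_log hN, ← Real.log_pow, Real.exp_log (by positivity)]
      field_simp
    rw [h2]
    refine mul_le_mul_of_nonneg_left ?_ (by positivity)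
    have := Real.add_one_le_exp (Real.log (Fintype.card X) - (len a : ℝ) * Real.log 2)
    linarith
  have h3 := (Finset.sum_le_sum fun a (_ : a ∈ (univ : Finset X)) => h1 a).trans hk
  rw [← Finset.mul_sum, Finset.sum_add_distrib, Finset.sum_sub_distrib, ← Finset.sum_mul] at h3
  simp only [Finset.sum_const, Finset.card_univ, nsmul_eq_mul, mul_one] at h3
  have h4 := mul_le_mul_of_nonneg_left h3 hN.le
  rw [← mul_assoc, mul_inv_cancel₀ hN.ne'] at h4
  linarith

/-- **Lower bound.** A fractional packing of cuts bounds the cost from below. -/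
theorem lower_bound [Nonempty X] (hP : DecidesEq G P c) (g : Finset V → ℝ)
    (hg0 : ∀ S, 0 ≤ g S) (hgc : ∀ S, g S ≠ 0 → S.Nonempty ∧ S ≠ univ)
    (hpack : ∀ u v, G.Adj u v → ∑ S : Finset V, (if (u ∈ S ↔ v ∈ S) then 0 else g S) ≤ 1) :
    (∑ S : Finset V, g S) * Real.log (Fintype.card X) ≤ c * Real.log 2 := by
  classical
  have hN : (0 : ℝ) < Fintype.card X := by exact_mod_cast Fintype.card_pos
  have hruns : ∀ a : X, ∃ (m : ℕ) (h : V → List (Ev V)), m ≤ c ∧ Run G P (fun _ => a) m h ∧
      ∀ v, P v a (h v) = Act.halt true := by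
    intro a
    obtain ⟨m, h, hm, hr, hh⟩ := hP fun _ => a
    refine ⟨m, h, hm, hr, fun v => ?_⟩
    obtain ⟨ans, h1, h2⟩ := hh v
    have h3 : ans = true := h2.2 fun _ _ => rfl
    rw [h1, h3]
  choose m h hm hr hh using hruns
  let L : X → V → V → ℕ := fun a u v => (sentTo v (h a u)).length
  have h1 : ∀ S, g S * ((Fintype.card X : ℝ) * Real.log (Fintype.card X)) ≤
      g S * (Real.log 2 * ∑ a : X, (cutLen (L a) S : ℝ)) := by
    intro S
    by_cases hS : g S = 0
    · simp [hS]
    · obtain ⟨hS1, hS2⟩ := hgc S hS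
      exact mul_le_mul_of_nonneg_left
        (avg_of_kraft _ (kraft hP hS1 hS2 m h hm hr hh)) (hg0 S)
  have h2 : ∑ S : Finset V, g S * (∑ a : X, (cutLen (L a) S : ℝ)) ≤
      ∑ a : X, (m a : ℝ) := by
    simp only [Finset.mul_sum]
    rw [Finset.sum_comm]
    refine Finset.sum_le_sum fun a _ => ?_
    have h3 : (m a : ℝ) = ∑ u, ∑ v, (L a u v : ℝ) := by
      have := (hr a).count
      exact_mod_cast this
    rw [h3]
    simp only [cutLen, Nat.cast_sum, Finset.mul_sum]
    rw [Finset.sum_comm]
    refine Finset.sum_le_sum fun u _ => ?_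
    rw [Finset.sum_comm]
    refine Finset.sum_le_sum fun v _ => ?_
    by_cases hL : L a u v = 0
    · simp [hL]
    · have hadj : G.Adj u v := by
        refine (hr a).adj u v fun h0 => hL ?_
        simp only [L, h0, List.length_nil]
      have h4 : ∀ S : Finset V, g S * ((if (u ∈ S ↔ v ∈ S) then 0 else L a u v : ℕ) : ℝ) =
          (if (u ∈ S ↔ v ∈ S) then 0 else g S) * (L a u v : ℝ) := by
        intro S
        split_ifs <;> simp
      simp only [h4]
      rw [← Finset.sum_mul]
      have := mul_le_mul_of_nonneg_right (hpack u v hadj) (Nat.cast_nonneg (α := ℝ) (L a u v))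
      linarith
  have h5 : ∑ a : X, (m a : ℝ) ≤ Fintype.card X * c := by
    calc ∑ a : X, (m a : ℝ) ≤ ∑ _a : X, (c : ℝ) :=
          Finset.sum_le_sum fun a _ => by exact_mod_cast hm a
      _ = Fintype.card X * c := by simp
  have h6 : (∑ S : Finset V, g S) * ((Fintype.card X : ℝ) * Real.log (Fintype.card X)) ≤
      Real.log 2 * (Fintype.card X * c) := by
    rw [Finset.sum_mul]
    calc ∑ S : Finset V, g S * ((Fintype.card X : ℝ) * Real.log (Fintype.card X))
        ≤ ∑ S : Finset V, g S * (Real.log 2 * ∑ a : X, (cutLen (L a) S : ℝ)) :=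
          Finset.sum_le_sum fun S _ => h1 S
      _ = Real.log 2 * ∑ S : Finset V, g S * (∑ a : X, (cutLen (L a) S : ℝ)) := by
          rw [Finset.mul_sum]
          refine Finset.sum_congr rfl fun S _ => ?_
          ring
      _ ≤ Real.log 2 * (Fintype.card X * c) :=
          mul_le_mul_of_nonneg_left (h2.trans h5) (Real.log_nonneg (by norm_num))
  have h7 : (Fintype.card X : ℝ) * ((∑ S : Finset V, g S) * Real.log (Fintype.card X)) ≤
      Fintype.card X * (c * Real.log 2) := by
    linarith [h6]
  exact le_of_mul_le_mul_left h7 hN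

end Pool.Agent.V11247.EqT
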