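import Mathlib

/-!
# Equality testing on a graph: the communication model

Players sit at the vertices of a graph, each with an input from `X`. A deterministic protocol tells a
player, from its own input and its own history (the bits it has sent and received so far, in order),
what to do next: send a bit to some player, wait for a bit from some player, or halt with an answer.
A bit passes from `u` to `v`, along an edge of the graph, when `u` is about to send a bit to `v` and
`v` waits for a bit from `u`.
-/

set_option autoImplicit false

namespace Pool.Agent.V11247.EqT

/-- An entry of the history of a player: it sent a bit to, or got a bit from, another player. -/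
inductive Ev (V : Type) : Type
  | sent (v : V) (b : Bool)
  | got (v : V) (b : Bool)

/-- What a player does next. -/
inductive Act (V : Type) : Type
  | send (v : V) (b : Bool)
  | wait (v : V)
  | halt (ans : Bool)

/-- A deterministic protocol: the next action of a player is a function of the player, its input and
its history. -/
def Protocol (V X : Type) : Type := V → X → List (Ev V) → Act V

/-- One step of the execution on input `x`: one bit passes along an edge of `G`. The state is the
history of each player. -/
inductive Step {V X : Type} [DecidableEq V] (G : SimpleGraph V) (P : Protocol V X) (x : V → X) :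
    (V → List (Ev V)) → (V → List (Ev V)) → Prop
  | mk (h : V → List (Ev V)) (u v : V) (b : Bool) (hadj : G.Adj u v)
      (hs : P u (x u) (h u) = Act.send v b) (hw : P v (x v) (h v) = Act.wait u) :
      Step G P x h
        (Function.update (Function.update h u (h u ++ [Ev.sent v b])) v (h v ++ [Ev.got u b]))

/-- `Run G P x m h`: from the empty histories, `m` steps can lead to the histories `h`. -/
inductive Run {V X : Type} [DecidableEq V] (G : SimpleGraph V) (P : Protocol V X) (x : V → X) :
    ℕ → (V → List (Ev V)) → Prop
  | start : Run G P x 0 (fun _ => [])
  | step (m : ℕ) (h h' : V → List (Ev V)) (hr : Run G P x m h) (hst : Step G P x h h') :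
      Run G P x (m + 1) h'

/-- On every input the protocol, after at most `c` bits sent in total, reaches a state in which all
players have halted, and all of them answer correctly whether all inputs are equal. -/
def DecidesEq {V X : Type} [DecidableEq V] (G : SimpleGraph V) (P : Protocol V X) (c : ℕ) : Prop :=
  ∀ x : V → X, ∃ (m : ℕ) (h : V → List (Ev V)), m ≤ c ∧ Run G P x m h ∧
    ∀ v, ∃ ans : Bool, P v (x v) (h v) = Act.halt ans ∧ (ans = true ↔ ∀ u w, x u = x w)

/-- The least worst-case total number of bits of a deterministic protocol that decides whether the
inputs, from a set `X`, are all equal. -/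
noncomputable def eqCost {V : Type} [DecidableEq V] (G : SimpleGraph V) (X : Type) : ℕ :=
  sInf {c : ℕ | ∃ P : Protocol V X, DecidesEq G P c}

/-! ### Invariants of runs -/

section Invariants

variable {V X : Type} [DecidableEq V]

/-- bits sent to `v` in a history -/
def sentTo (v : V) : List (Ev V) → List Bool
  | [] => []
  | Ev.sent w b :: l => if w = v then b :: sentTo v l else sentTo v l
  | Ev.got _ _ :: l => sentTo v l

/-- bits got from `v` in a history -/
def gotFrom (v : V) : List (Ev V) → List Bool
  | [] => []
  | Ev.got w b :: l => if w = v then b :: gotFrom v l else gotFrom v l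
  | Ev.sent _ _ :: l => gotFrom v l

theorem sentTo_append (v : V) (l l' : List (Ev V)) :
    sentTo v (l ++ l') = sentTo v l ++ sentTo v l' := by
  induction l with
  | nil => simp [sentTo]
  | cons e l ih =>
    cases e with
    | sent w b =>
      by_cases h : w = v <;> simp [sentTo, h, ih]
    | got w b => simp [sentTo, ih]

theorem gotFrom_append (v : V) (l l' : List (Ev V)) :
    gotFrom v (l ++ l') = gotFrom v l ++ gotFrom v l' := by
  induction l with
  | nil => simp [gotFrom]
  | cons e l ih =>
    cases e with
    | got w b =>
      by_cases h : w = v <;> simp [gotFrom, h, ih]
    | sent w b => simp [gotFrom, ih]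

/-- A history follows the protocol. -/
def Follows (P : Protocol V X) (v : V) (a : X) (h : List (Ev V)) : Prop :=
  ∀ l e l', h = l ++ e :: l' →
    (∃ w b, P v a l = Act.send w b ∧ e = Ev.sent w b) ∨ (∃ w b, P v a l = Act.wait w ∧ e = Ev.got w b)

theorem Follows.nil (P : Protocol V X) (v : V) (a : X) : Follows P v a [] := by
  intro l e l' h
  simp at h

theorem Follows.snoc {P : Protocol V X} {v : V} {a : X} {h : List (Ev V)} (hf : Follows P v a h)
    {e : Ev V} (he : (∃ w b, P v a h = Act.send w b ∧ e = Ev.sent w b) ∨
      (∃ w b, P v a h = Act.wait w ∧ e = Ev.got w b)) : Follows P v a (h ++ [e]) := by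
  intro l e' l' hl
  rcases List.eq_nil_or_concat l' with rfl | ⟨l'', e'', rfl⟩
  · have h1 := List.append_inj' hl rfl
    obtain ⟨h1, h2⟩ := h1
    simp only [List.cons.injEq, and_true] at h2
    subst h1; subst h2
    exact he
  · have h1 : h ++ [e] = (l ++ e' :: l'') ++ [e''] := by simpa using hl
    have h2 := List.append_inj' h1 rfl
    exact hf l e' l'' h2.1

variable {G : SimpleGraph V} {P : Protocol V X} {x : V → X}

theorem Run.follows {m : ℕ} {h : V → List (Ev V)} (hr : Run G P x m h) (v : V) :
    Follows P v (x v) (h v) := by
  induction hr with
  | start => exact Follows.nil _ _ _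
  | step m h h' _ hst ih =>
    cases hst with
    | mk u w b hadj hs hw =>
      by_cases hvw : v = w
      · subst hvw
        rw [Function.update_self]
        exact ih.snoc (Or.inr ⟨u, b, hw, rfl⟩)
      · rw [Function.update_of_ne hvw]
        by_cases hvu : v = u
        · subst hvu
          rw [Function.update_self]
          exact ih.snoc (Or.inl ⟨w, b, hs, rfl⟩)
        · rw [Function.update_of_ne hvu]
          exact ih

theorem Run.channel {m : ℕ} {h : V → List (Ev V)} (hr : Run G P x m h) (u v : V) :
    sentTo v (h u) = gotFrom u (h v) := by
  induction hr with
  | start => simp [sentTo, gotFrom]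
  | step m h h' _ hst ih =>
    cases hst with
    | mk p q b hadj hs hw =>
      have hpq : p ≠ q := hadj.ne
      have key1 : sentTo v (Function.update (Function.update h p (h p ++ [Ev.sent q b])) q
          (h q ++ [Ev.got p b]) u) = sentTo v (h u) ++ (if u = p ∧ q = v then [b] else []) := by
        by_cases huq : u = q
        · subst huq
          rw [Function.update_self, sentTo_append]
          have : ¬ (u = p ∧ u = v) := fun h => hpq h.1.symm
          simp [sentTo, this]
        · rw [Function.update_of_ne huq]
          by_cases hup : u = p
          · subst hup
            rw [Function.update_self, sentTo_append]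
            by_cases hqv : q = v <;> simp [sentTo, hqv]
          · rw [Function.update_of_ne hup]
            simp [hup]
      have key2 : gotFrom u (Function.update (Function.update h p (h p ++ [Ev.sent q b])) q
          (h q ++ [Ev.got p b]) v) = gotFrom u (h v) ++ (if u = p ∧ q = v then [b] else []) := by
        by_cases hvq : v = q
        · subst hvq
          rw [Function.update_self, gotFrom_append]
          by_cases hup : u = p
          · simp [gotFrom, hup]
          · have : ¬ p = u := fun h => hup h.symm
            simp [gotFrom, hup, this]
        · rw [Function.update_of_ne hvq]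
          have hqv : ¬ q = v := fun h => hvq h.symm
          by_cases hvp : v = p
          · subst hvp
            rw [Function.update_self, gotFrom_append]
            simp [gotFrom, hqv]
          · rw [Function.update_of_ne hvp]
            simp [hqv]
      rw [key1, key2, ih]

theorem Run.adj {m : ℕ} {h : V → List (Ev V)} (hr : Run G P x m h) (u v : V)
    (hne : sentTo v (h u) ≠ []) : G.Adj u v := by
  induction hr with
  | start => simp [sentTo] at hne
  | step m h h' _ hst ih =>
    cases hst with
    | mk p q b hadj hs hw =>
      by_cases hc : u = p ∧ q = v
      · rw [hc.1, ← hc.2]; exact hadj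
      · apply ih
        intro h0
        apply hne
        by_cases huq : u = q
        · subst huq
          rw [Function.update_self, sentTo_append, h0]
          simp [sentTo]
        · rw [Function.update_of_ne huq]
          by_cases hup : u = p
          · subst hup
            rw [Function.update_self, sentTo_append, h0]
            have : ¬ q = v := fun h => hc ⟨rfl, h⟩
            simp [sentTo, this]
          · rw [Function.update_of_ne hup]
            exact h0

theorem Run.count [Fintype V] {m : ℕ} {h : V → List (Ev V)} (hr : Run G P x m h) :
    m = ∑ u, ∑ v, (sentTo v (h u)).length := by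
  induction hr with
  | start => simp [sentTo]
  | step m h h' _ hst ih =>
    cases hst with
    | mk p q b hadj hs hw =>
      have hpq : p ≠ q := hadj.ne
      have key1 : ∀ u v, (sentTo v (Function.update (Function.update h p (h p ++ [Ev.sent q b])) q
          (h q ++ [Ev.got p b]) u)).length =
          (sentTo v (h u)).length + (if u = p then (if q = v then 1 else 0) else 0) := by
        intro u v
        by_cases huq : u = q
        · subst huq
          rw [Function.update_self, sentTo_append]
          have : ¬ (u = p) := fun h => hpq h.symm
          simp [sentTo, this]
        · rw [Function.update_of_ne huq]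
          by_cases hup : u = p
          · subst hup
            rw [Function.update_self, sentTo_append]
            by_cases hqv : q = v <;> simp [sentTo, hqv]
          · rw [Function.update_of_ne hup]
            simp [hup]
      simp only [key1, Finset.sum_add_distrib]
      rw [← ih]
      simp

end Invariants

/-! ### The cut argument -/

section Cut

variable {V X : Type} [DecidableEq V] {G : SimpleGraph V} {P : Protocol V X}

/-- A prefix of a history that follows the protocol and at which the player has halted is the whole
history. -/
theorem eq_of_halt {v : V} {a : X} {h h' : List (Ev V)} (hf : Follows P v a h') (hp : h <+: h')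
    {ans : Bool} (hh : P v a h = Act.halt ans) : h = h' := by
  obtain ⟨t, rfl⟩ := hp
  cases t with
  | nil => simp
  | cons e t =>
    rcases hf h e t rfl with ⟨w, b, h1, _⟩ | ⟨w, b, h1, _⟩
    · rw [hh] at h1; cases h1
    · rw [hh] at h1; cases h1

/-- Extension of a prefix by the event that the protocol prescribes. -/
theorem extend_sent {v : V} {a : X} {h h' : List (Ev V)} (hf : Follows P v a h') (hp : h <+: h')
    {ans : Bool} (hh : P v a h' = Act.halt ans) {w : V} {b : Bool} (hs : P v a h = Act.send w b) :
    h ++ [Ev.sent w b] <+: h' := by
  obtain ⟨t, rfl⟩ := hp
  cases t with
  | nil => simp only [List.append_nil] at hh; rw [hs] at hh; cases hh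
  | cons e t =>
    rcases hf h e t rfl with ⟨w', b', h1, rfl⟩ | ⟨w', b', h1, _⟩
    · rw [hs] at h1
      cases h1
      exact ⟨t, by simp⟩
    · rw [hs] at h1; cases h1

theorem extend_got {v : V} {a : X} {h h' : List (Ev V)} (hf : Follows P v a h') (hp : h <+: h')
    {ans : Bool} (hh : P v a h' = Act.halt ans) {w : V} (hs : P v a h = Act.wait w) :
    ∃ b, h ++ [Ev.got w b] <+: h' := by
  obtain ⟨t, rfl⟩ := hp
  cases t with
  | nil => simp only [List.append_nil] at hh; rw [hs] at hh; cases hh
  | cons e t =>
    rcases hf h e t rfl with ⟨w', b', h1, _⟩ | ⟨w', b', h1, rfl⟩
    · rw [hs] at h1; cases h1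
    · rw [hs] at h1
      cases h1
      exact ⟨b', ⟨t, by simp⟩⟩

theorem getElem?_of_prefix_sent {v : V} {h h' : List (Ev V)} {b : Bool}
    (hp : h ++ [Ev.sent v b] <+: h') : (sentTo v h')[(sentTo v h).length]? = some b := by
  obtain ⟨t, rfl⟩ := hp
  rw [sentTo_append, sentTo_append]
  simp [sentTo]

theorem getElem?_of_prefix_got {v : V} {h h' : List (Ev V)} {b : Bool}
    (hp : h ++ [Ev.got v b] <+: h') : (gotFrom v h')[(gotFrom v h).length]? = some b := by
  obtain ⟨t, rfl⟩ := hp
  rw [gotFrom_append, gotFrom_append]
  simp [gotFrom]

/-- **Cut argument.** Suppose that the protocol halts with answer `true` at all players on the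
constant inputs `a` and `b`, and that the bits that cross the cut `S` in the two runs agree as far as
both are defined. Then the mixed input also makes all players answer `true`. -/
theorem mixed {a b : X} {S : Set V} [DecidablePred (· ∈ S)]
    {ma mb mz : ℕ} {ha hb hz : V → List (Ev V)}
    (ra : Run G P (fun _ => a) ma ha) (rb : Run G P (fun _ => b) mb hb)
    (rz : Run G P (fun v => if v ∈ S then a else b) mz hz)
    (hha : ∀ v, P v a (ha v) = Act.halt true) (hhb : ∀ v, P v b (hb v) = Act.halt true)
    (hcomp : ∀ u v, ¬ (u ∈ S ↔ v ∈ S) → ∀ (i : ℕ) (s t : Bool),
      (sentTo v (ha u))[i]? = some s → (sentTo v (hb u))[i]? = some t → s = t) :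
    ∀ v, hz v <+: (if v ∈ S then ha v else hb v) := by
  induction rz with
  | start => intro v; exact List.nil_prefix
  | step m h h' hr hst ih =>
    cases hst with
    | mk p q c hadj hs hw =>
      -- notation
      have fol : ∀ v, Follows P v (if v ∈ S then a else b) (if v ∈ S then ha v else hb v) := by
        intro v
        by_cases hv : v ∈ S
        · simp only [hv, if_true]; exact ra.follows v
        · simp only [hv, if_false]; exact rb.follows v
      have hlt : ∀ v, P v (if v ∈ S then a else b) (if v ∈ S then ha v else hb v) =
          Act.halt true := by
        intro v
        by_cases hv : v ∈ S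
        · simp only [hv, if_true]; exact hha v
        · simp only [hv, if_false]; exact hhb v
      have e1 : h p ++ [Ev.sent q c] <+: (if p ∈ S then ha p else hb p) :=
        extend_sent (fol p) (ih p) (hlt p) hs
      obtain ⟨c', e2⟩ := extend_got (fol q) (ih q) (hlt q) hw
      have g1 := getElem?_of_prefix_sent e1
      have g2 := getElem?_of_prefix_got e2
      have hch := hr.channel p q
      have hcc : c = c' := by
        rw [hch] at g1
        by_cases hp : p ∈ S
        · by_cases hq : q ∈ S
          · simp only [hp, hq, if_true] at g1 g2
            rw [← ra.channel p q, g1] at g2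
            exact Option.some.inj g2
          · simp only [hp, hq, if_true, if_false] at g1 g2
            rw [← rb.channel p q] at g2
            exact hcomp p q (by simp [hp, hq]) _ _ _ g1 g2
        · by_cases hq : q ∈ S
          · simp only [hp, hq, if_true, if_false] at g1 g2
            rw [← ra.channel p q] at g2
            exact (hcomp p q (by simp [hp, hq]) _ _ _ g2 g1).symm
          · simp only [hp, hq, if_false] at g1 g2
            rw [← rb.channel p q, g1] at g2
            exact Option.some.inj g2
      subst hcc
      intro v
      by_cases hvq : v = q
      · subst hvq
        rw [Function.update_self]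
        exact e2
      · rw [Function.update_of_ne hvq]
        by_cases hvp : v = p
        · subst hvp
          rw [Function.update_self]
          exact e1
        · rw [Function.update_of_ne hvp]
          exact ih v

end Cut

end Pool.Agent.V11247.EqT
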