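import Pool.Agent.V11247.EqT.Petersen

/-!
# The rate of the Petersen graph is five
-/

set_option autoImplicit false

namespace Pool.Agent.V11247.EqT

open Filter Topology Finset

/-- Weight one half on every single-vertex cut. -/
theorem half_pack {V : Type} [DecidableEq V] [Fintype V] (hV : 2 ≤ Fintype.card V)
    (G : SimpleGraph V) : ∃ g : Finset V → ℝ, (∀ S, 0 ≤ g S) ∧
      (∀ S, g S ≠ 0 → S.Nonempty ∧ S ≠ univ) ∧
      (∀ u v, G.Adj u v → ∑ S : Finset V, (if (u ∈ S ↔ v ∈ S) then 0 else g S) ≤ 1) ∧
      ∑ S : Finset V, g S = (Fintype.card V : ℝ) / 2 := by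
  classical
  let g : Finset V → ℝ := fun S => if S ∈ (univ : Finset V).image (fun v => ({v} : Finset V)) then
    1 / 2 else 0
  have hinj : Set.InjOn (fun v : V => ({v} : Finset V)) (univ : Finset V) := by
    intro a _ b _ h
    simpa using h
  refine ⟨g, ?_, ?_, ?_, ?_⟩
  · intro S
    simp only [g]
    split_ifs <;> norm_num
  · intro S hS
    simp only [g] at hS
    split_ifs at hS with h
    · rw [Finset.mem_image] at h
      obtain ⟨v, _, rfl⟩ := h
      refine ⟨⟨v, by simp⟩, fun h => ?_⟩
      have := congrArg Finset.card h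
      rw [Finset.card_singleton, Finset.card_univ] at this
      omega
    · exact absurd rfl hS
  · intro u v huv
    have h1 : ∀ S : Finset V, (if (u ∈ S ↔ v ∈ S) then 0 else g S) =
        if S ∈ (univ : Finset V).image (fun v => ({v} : Finset V)) then
          (if (u ∈ S ↔ v ∈ S) then 0 else (1 / 2 : ℝ)) else 0 := by
      intro S
      simp only [g]
      split_ifs <;> rfl
    simp only [h1]
    rw [Finset.sum_ite_mem, Finset.univ_inter, Finset.sum_image hinj]
    have h2 : ∀ w : V, (if (u ∈ ({w} : Finset V) ↔ v ∈ ({w} : Finset V)) then 0 else (1 / 2 : ℝ)) =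
        (if u = w then 1 / 2 else 0) + (if v = w then 1 / 2 else 0) := by
      intro w
      simp only [Finset.mem_singleton]
      by_cases h3 : u = w
      · by_cases h4 : v = w
        · exact absurd (h3.trans h4.symm) huv.ne
        · simp [h3, h4]
      · by_cases h4 : v = w
        · simp [h3, h4]
        · simp [h3, h4]
    simp only [h2]
    rw [Finset.sum_add_distrib, Finset.sum_ite_eq, Finset.sum_ite_eq]
    simp
    norm_num
  · simp only [g]
    rw [Finset.sum_ite_mem, Finset.univ_inter, Finset.sum_image hinj]
    simp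
    ring

/-- The Petersen graph has rate five. -/
theorem petersen_rate :
    Tendsto (fun n : ℕ => (eqCost petersen (Fin n → Bool) : ℝ) / n) atTop (𝓝 5) := by
  obtain ⟨g, h1, h2, h3, h4⟩ := half_pack (V := Fin 10) (by simp) petersen
  refine tendsto_of_bounds ?_ ?_
  · intro n
    have := eqCost_ge petersen_connected n g h1 h2 h3
    rw [h4] at this
    norm_num at this
    exact this
  · intro ε hε
    have := limit_upper petersen_connected (by norm_num : 0 < 3) pE_adj petersen_rig ε hε
    have h5 : ((pE.length : ℝ) / ((3 : ℕ) : ℝ)) = 5 := by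
      have : pE.length = 15 := rfl
      rw [this]; norm_num
    rw [h5] at this
    exact this

end Pool.Agent.V11247.EqT
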