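import Pool.Agent.V11247.EqT.Rate

/-!
# The Petersen graph
-/

set_option autoImplicit false

namespace Pool.Agent.V11247.EqT

open Filter Topology Finset

/-- The edges of the Petersen graph: the outer cycle `0 1 2 3 4`, the spokes `i, i + 5` and the inner
cycle `5 7 9 6 8`. -/
def petersenEdges : List (Fin 10 × Fin 10) :=
  [(0, 1), (0, 5), (5, 7), (1, 2), (1, 6), (6, 8), (2, 3), (2, 7), (7, 9), (3, 4), (3, 8), (8, 5), (4, 0), (4, 9), (9, 6)]

/-- The Petersen graph. -/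
def petersen : SimpleGraph (Fin 10) where
  Adj u v := (u, v) ∈ petersenEdges ∨ (v, u) ∈ petersenEdges
  symm := ⟨fun _ _ h => h.symm⟩
  loopless := ⟨by decide⟩

instance : DecidableRel petersen.Adj := fun u v =>
  inferInstanceAs (Decidable ((u, v) ∈ petersenEdges ∨ (v, u) ∈ petersenEdges))

/-- The linear forms on the edges. -/
def pE : List (Fin 10 × Fin 10 × (Fin 3 → ℤ)) :=
  [(0, 1, ![-1, 0, 1]),
   (0, 5, ![-1, 2, -2]),
   (5, 7, ![0, 2, -3]),
   (1, 2, ![0, 1, 2]),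
   (1, 6, ![0, -1, -1]),
   (6, 8, ![0, -1, -3]),
   (2, 3, ![1, 2, 3]),
   (2, 7, ![0, -1, -1]),
   (7, 9, ![1, 1, -4]),
   (3, 4, ![3, 1, 1]),
   (3, 8, ![-1, 1, 2]),
   (8, 5, ![0, 0, -1]),
   (4, 0, ![-3, 2, -1]),
   (4, 9, ![-3, -1, 2]),
   (9, 6, ![-1, 0, -2])]

/-- The blocks. -/
def pN : Fin 2 → Finset (Fin 3) := ![{0}, {1}]

theorem petersen_connected : petersen.Connected := by
  have h1 : ∀ v, petersen.Reachable 0 v := by
    have hs : ∀ u v, petersen.Adj u v → petersen.Reachable 0 u → petersen.Reachable 0 v :=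
      fun u v h h' => h'.trans h.reachable
    have r0 : petersen.Reachable 0 0 := SimpleGraph.Reachable.refl _
    have r1 := hs 0 1 (by decide) r0
    have r5 := hs 0 5 (by decide) r0
    have r4 := hs 0 4 (by decide) r0
    have r2 := hs 1 2 (by decide) r1
    have r6 := hs 1 6 (by decide) r1
    have r7 := hs 5 7 (by decide) r5
    have r8 := hs 5 8 (by decide) r5
    have r3 := hs 4 3 (by decide) r4
    have r9 := hs 4 9 (by decide) r4
    intro v
    fin_cases v <;> assumption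
  exact SimpleGraph.connected_iff_exists_forall_reachable petersen |>.2 ⟨0, h1⟩

theorem pE_adj : ∀ e ∈ pE, petersen.Adj e.1 e.2.1 := by
  intro e he
  simp only [pE, List.mem_cons, List.not_mem_nil, or_false] at he
  rcases he with rfl | rfl | rfl | rfl | rfl | rfl | rfl | rfl | rfl | rfl | rfl | rfl | rfl | rfl | rfl <;> decide

theorem petersen_rig : Rig pE pN := by
  intro d t hE hN
  have hj : ∀ j : Fin d,
      ((-1) * t 0 j 0 + (0) * t 0 j 1 + (1) * t 0 j 2 =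
        (-1) * t 1 j 0 + (0) * t 1 j 1 + (1) * t 1 j 2) ∧
      ((-1) * t 0 j 0 + (2) * t 0 j 1 + (-2) * t 0 j 2 =
        (-1) * t 5 j 0 + (2) * t 5 j 1 + (-2) * t 5 j 2) ∧
      ((0) * t 5 j 0 + (2) * t 5 j 1 + (-3) * t 5 j 2 =
        (0) * t 7 j 0 + (2) * t 7 j 1 + (-3) * t 7 j 2) ∧
      ((0) * t 1 j 0 + (1) * t 1 j 1 + (2) * t 1 j 2 =
        (0) * t 2 j 0 + (1) * t 2 j 1 + (2) * t 2 j 2) ∧
      ((0) * t 1 j 0 + (-1) * t 1 j 1 + (-1) * t 1 j 2 =
        (0) * t 6 j 0 + (-1) * t 6 j 1 + (-1) * t 6 j 2) ∧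
      ((0) * t 6 j 0 + (-1) * t 6 j 1 + (-3) * t 6 j 2 =
        (0) * t 8 j 0 + (-1) * t 8 j 1 + (-3) * t 8 j 2) ∧
      ((1) * t 2 j 0 + (2) * t 2 j 1 + (3) * t 2 j 2 =
        (1) * t 3 j 0 + (2) * t 3 j 1 + (3) * t 3 j 2) ∧
      ((0) * t 2 j 0 + (-1) * t 2 j 1 + (-1) * t 2 j 2 =
        (0) * t 7 j 0 + (-1) * t 7 j 1 + (-1) * t 7 j 2) ∧
      ((1) * t 7 j 0 + (1) * t 7 j 1 + (-4) * t 7 j 2 =
        (1) * t 9 j 0 + (1) * t 9 j 1 + (-4) * t 9 j 2) ∧
      ((3) * t 3 j 0 + (1) * t 3 j 1 + (1) * t 3 j 2 =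
        (3) * t 4 j 0 + (1) * t 4 j 1 + (1) * t 4 j 2) ∧
      ((-1) * t 3 j 0 + (1) * t 3 j 1 + (2) * t 3 j 2 =
        (-1) * t 8 j 0 + (1) * t 8 j 1 + (2) * t 8 j 2) ∧
      ((0) * t 8 j 0 + (0) * t 8 j 1 + (-1) * t 8 j 2 =
        (0) * t 5 j 0 + (0) * t 5 j 1 + (-1) * t 5 j 2) ∧
      ((-3) * t 4 j 0 + (2) * t 4 j 1 + (-1) * t 4 j 2 =
        (-3) * t 0 j 0 + (2) * t 0 j 1 + (-1) * t 0 j 2) ∧
      ((-3) * t 4 j 0 + (-1) * t 4 j 1 + (2) * t 4 j 2 =
        (-3) * t 9 j 0 + (-1) * t 9 j 1 + (2) * t 9 j 2) ∧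
      ((-1) * t 9 j 0 + (0) * t 9 j 1 + (-2) * t 9 j 2 =
        (-1) * t 6 j 0 + (0) * t 6 j 1 + (-2) * t 6 j 2) := by
    intro j
    refine ⟨?_, ?_, ?_, ?_, ?_, ?_, ?_, ?_, ?_, ?_, ?_, ?_, ?_, ?_, ?_⟩
    · have := hE (0, 1, ![-1, 0, 1]) (by simp [pE]) j
      simpa [Fin.sum_univ_three, Matrix.cons_val_zero, Matrix.cons_val_one] using this
    · have := hE (0, 5, ![-1, 2, -2]) (by simp [pE]) j
      simpa [Fin.sum_univ_three, Matrix.cons_val_zero, Matrix.cons_val_one] using this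
    · have := hE (5, 7, ![0, 2, -3]) (by simp [pE]) j
      simpa [Fin.sum_univ_three, Matrix.cons_val_zero, Matrix.cons_val_one] using this
    · have := hE (1, 2, ![0, 1, 2]) (by simp [pE]) j
      simpa [Fin.sum_univ_three, Matrix.cons_val_zero, Matrix.cons_val_one] using this
    · have := hE (1, 6, ![0, -1, -1]) (by simp [pE]) j
      simpa [Fin.sum_univ_three, Matrix.cons_val_zero, Matrix.cons_val_one] using this
    · have := hE (6, 8, ![0, -1, -3]) (by simp [pE]) j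
      simpa [Fin.sum_univ_three, Matrix.cons_val_zero, Matrix.cons_val_one] using this
    · have := hE (2, 3, ![1, 2, 3]) (by simp [pE]) j
      simpa [Fin.sum_univ_three, Matrix.cons_val_zero, Matrix.cons_val_one] using this
    · have := hE (2, 7, ![0, -1, -1]) (by simp [pE]) j
      simpa [Fin.sum_univ_three, Matrix.cons_val_zero, Matrix.cons_val_one] using this
    · have := hE (7, 9, ![1, 1, -4]) (by simp [pE]) j
      simpa [Fin.sum_univ_three, Matrix.cons_val_zero, Matrix.cons_val_one] using this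
    · have := hE (3, 4, ![3, 1, 1]) (by simp [pE]) j
      simpa [Fin.sum_univ_three, Matrix.cons_val_zero, Matrix.cons_val_one] using this
    · have := hE (3, 8, ![-1, 1, 2]) (by simp [pE]) j
      simpa [Fin.sum_univ_three, Matrix.cons_val_zero, Matrix.cons_val_one] using this
    · have := hE (8, 5, ![0, 0, -1]) (by simp [pE]) j
      simpa [Fin.sum_univ_three, Matrix.cons_val_zero, Matrix.cons_val_one] using this
    · have := hE (4, 0, ![-3, 2, -1]) (by simp [pE]) j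
      simpa [Fin.sum_univ_three, Matrix.cons_val_zero, Matrix.cons_val_one] using this
    · have := hE (4, 9, ![-3, -1, 2]) (by simp [pE]) j
      simpa [Fin.sum_univ_three, Matrix.cons_val_zero, Matrix.cons_val_one] using this
    · have := hE (9, 6, ![-1, 0, -2]) (by simp [pE]) j
      simpa [Fin.sum_univ_three, Matrix.cons_val_zero, Matrix.cons_val_one] using this
  -- first coordinate
  have s0 : ∀ v, (fun j => t v j 0) = (fun j => t 4 j 0) := by
    refine conv (V := Fin 10) 4 (fun v => if v = 4 then -9 else 1) ?_ (fun v j => t v j 0) ?_ ?_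
    · intro v hv
      simp [hv]
    · intro v
      have := hN 0 v 4
      simpa [pN] using this
    · intro j
      obtain ⟨h0, h1, h2, h3, h4, h5, h6, h7, h8, h9, h10, h11, h12, h13, h14⟩ := hj j
      simp only [Fin.sum_univ_succ, Fin.sum_univ_zero]
      simp [Fin.ext_iff]
      linarith
  have a0 : ∀ v j, t v j 0 = t 4 j 0 := fun v j => congrFun (s0 v) j
  -- second coordinate
  have s1 : ∀ v, (fun j => t v j 1) = (fun j => t 4 j 1) := by
    refine conv (V := Fin 10) 4 ![36, 6, 2, 10, -72, 4, 4, 5, 2, 3] ?_ (fun v j => t v j 1) ?_ ?_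
    · intro v hv
      fin_cases v <;> simp_all
    · intro v
      have := hN 1 v 4
      simpa [pN] using this
    · intro j
      obtain ⟨h0, h1, h2, h3, h4, h5, h6, h7, h8, h9, h10, h11, h12, h13, h14⟩ := hj j
      simp only [a0 0, a0 1, a0 2, a0 3, a0 5, a0 6, a0 7, a0 8, a0 9] at h0 h1 h2 h3 h4 h5 h6 h7 h8 h9 h10 h11 h12 h13 h14
      simp only [Fin.sum_univ_succ, Fin.sum_univ_zero]
      simp [Fin.ext_iff]
      linear_combination (12) * h0 + (-6) * h1 + (-4) * h2 + (6) * h3 + (0) * h4 + (-4) * h5 + (4) * h6 + (0) * h7 + (-3) * h8 + (24) * h9 + (-6) * h10 + (0) * h11 + (-24) * h12 + (0) * h13 + (-6) * h14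
  have a1 : ∀ v j, t v j 1 = t 4 j 1 := fun v j => congrFun (s1 v) j
  have a2 : ∀ v j, t v j 2 = t 4 j 2 := by
    intro v j
    obtain ⟨h0, h1, h2, h3, h4, h5, h6, h7, h8, h9, h10, h11, h12, h13, h14⟩ := hj j
    simp only [a0 0, a0 1, a0 2, a0 3, a0 5, a0 6, a0 7, a0 8, a0 9, a1 0, a1 1, a1 2, a1 3, a1 5,
      a1 6, a1 7, a1 8, a1 9] at h0 h1 h2 h3 h4 h5 h6 h7 h8 h9 h10 h11 h12 h13 h14
    fin_cases v <;> simp only [Fin.reduceFinMk, Fin.zero_eta, Fin.mk_one] <;> linarith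
  intro v w
  funext j k
  fin_cases k
  · exact (a0 v j).trans (a0 w j).symm
  · exact (a1 v j).trans (a1 w j).symm
  · exact (a2 v j).trans (a2 w j).symm

end Pool.Agent.V11247.EqT
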