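import Pool.Agent.V11247.EqT.Model

/-!
# Upper bound: from a list of one-bit checks to a protocol
-/

set_option autoImplicit false

namespace Pool.Agent.V11247.EqT

variable {V X : Type} [DecidableEq V]

/-- An instruction: `src` sends to `dst` a bit computed from its input and history. -/
structure Instr (V X : Type) : Type where
  src : V
  dst : V
  bit : X → List (Ev V) → Bool

/-- the player `w` takes part in the instruction -/
def Instr.inv (w : V) (i : Instr V X) : Bool := decide (i.src = w) || decide (i.dst = w)

/-- The protocol that carries out a fixed list of instructions. -/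
def compile (I : List (Instr V X)) (out : V → X → List (Ev V) → Bool) : Protocol V X :=
  fun w a h =>
    match (I.filter (Instr.inv w))[h.length]? with
    | none => Act.halt (out w a h)
    | some i => if i.src = w then Act.send i.dst (i.bit a h) else Act.wait i.src

/-- histories after one instruction -/
def stepH (x : V → X) (h : V → List (Ev V)) (i : Instr V X) : V → List (Ev V) :=
  Function.update (Function.update h i.src (h i.src ++ [Ev.sent i.dst (i.bit (x i.src) (h i.src))]))
    i.dst (h i.dst ++ [Ev.got i.src (i.bit (x i.src) (h i.src))])

/-- histories after a list of instructions -/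
def hist (x : V → X) (h : V → List (Ev V)) (I : List (Instr V X)) : V → List (Ev V) :=
  I.foldl (stepH x) h

theorem stepH_length {x : V → X} {h : V → List (Ev V)} {i : Instr V X} (hi : i.src ≠ i.dst)
    (w : V) : (stepH x h i w).length = (h w).length + if i.inv w then 1 else 0 := by
  unfold stepH Instr.inv
  by_cases h1 : w = i.dst
  · subst h1
    rw [Function.update_self]
    simp
  · rw [Function.update_of_ne h1]
    have h1' : ¬ i.dst = w := fun h => h1 h.symm
    by_cases h2 : w = i.src
    · subst h2
      rw [Function.update_self]
      simp
    · rw [Function.update_of_ne h2]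
      have h2' : ¬ i.src = w := fun h => h2 h.symm
      simp [h1', h2']

theorem run_compile {G : SimpleGraph V} {x : V → X} {I : List (Instr V X)}
    {out : V → X → List (Ev V) → Bool} (hadj : ∀ i ∈ I, G.Adj i.src i.dst) :
    ∀ (I2 I1 : List (Instr V X)) (h : V → List (Ev V)), I = I1 ++ I2 →
      Run G (compile I out) x I1.length h →
      (∀ w, (h w).length = (I1.filter (Instr.inv w)).length) →
      Run G (compile I out) x I.length (hist x h I2) ∧
        ∀ w, (hist x h I2 w).length = (I.filter (Instr.inv w)).length := by
  intro I2
  induction I2 with
  | nil =>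
    intro I1 h hI hr hl
    rw [List.append_nil] at hI
    subst hI
    exact ⟨hr, hl⟩
  | cons i I2 ih =>
    intro I1 h hI hr hl
    have hi : G.Adj i.src i.dst := hadj i (by rw [hI]; simp)
    have hget : ∀ w, i.inv w = true → (I.filter (Instr.inv w))[(h w).length]? = some i := by
      intro w hw
      rw [hI, List.filter_append, hl w, List.getElem?_append_right (le_refl _), Nat.sub_self,
        List.filter_cons_of_pos hw]
      rfl
    have hs : compile I out i.src (x i.src) (h i.src) =
        Act.send i.dst (i.bit (x i.src) (h i.src)) := by
      unfold compile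
      rw [hget i.src (by simp [Instr.inv])]
      simp
    have hw : compile I out i.dst (x i.dst) (h i.dst) = Act.wait i.src := by
      unfold compile
      rw [hget i.dst (by simp [Instr.inv])]
      simp [hi.ne]
    have hstep := Step.mk (x := x) h i.src i.dst (i.bit (x i.src) (h i.src)) hi hs hw
    have hr' : Run G (compile I out) x (I1 ++ [i]).length (stepH x h i) := by
      rw [List.length_append]
      exact Run.step _ _ _ hr hstep
    refine ih (I1 ++ [i]) (stepH x h i) (by simpa using hI) hr' ?_
    intro w
    rw [stepH_length hi.ne, hl w, List.filter_append, List.length_append]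
    congr 1
    by_cases hw : i.inv w
    · simp [hw]
    · simp [hw]

theorem compile_halt {I : List (Instr V X)} {out : V → X → List (Ev V) → Bool} {w : V} {a : X}
    {h : List (Ev V)} (hl : h.length = (I.filter (Instr.inv w)).length) :
    compile I out w a h = Act.halt (out w a h) := by
  unfold compile
  rw [hl, List.getElem?_eq_none (le_refl _)]

/-- The value of a compiled protocol. -/
theorem decides_compile {G : SimpleGraph V} {I : List (Instr V X)}
    {out : V → X → List (Ev V) → Bool} (hadj : ∀ i ∈ I, G.Adj i.src i.dst)
    (hout : ∀ (x : V → X) (w : V), out w (x w) (hist x (fun _ => []) I w) = true ↔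
      ∀ u v, x u = x v) :
    DecidesEq G (compile I out) I.length := by
  intro x
  obtain ⟨hr, hl⟩ := run_compile (x := x) (out := out) hadj I [] (fun _ => []) (by simp)
    (by simpa using Run.start) (by simp)
  refine ⟨I.length, _, le_rfl, hr, fun v => ⟨_, compile_halt (hl v), hout x v⟩⟩

/-- A one-bit check: `src` and `dst` compare the values of `f` at their inputs. -/
structure Check (V X : Type) : Type where
  src : V
  dst : V
  f : X → Bool

/-- the instruction of a check -/
def Check.instr (c : Check V X) : Instr V X := ⟨c.src, c.dst, fun a _ => c.f a⟩

/-- the player `w` takes part in the check -/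
def Check.inv (w : V) (c : Check V X) : Bool := decide (c.src = w) || decide (c.dst = w)

/-- events that stem from a check -/
def Check.ev (x : V → X) (w : V) (c : Check V X) : Ev V :=
  if c.src = w then Ev.sent c.dst (c.f (x w)) else Ev.got c.src (c.f (x c.src))

/-- compare an event with a check -/
def Check.okEv (a : X) (c : Check V X) : Ev V → Bool
  | Ev.sent _ _ => true
  | Ev.got _ b => b == c.f a

/-- the bit of a received event -/
def evBit : Ev V → Bool
  | Ev.sent _ _ => true
  | Ev.got _ b => b

/-- the checks in which `w` takes part -/
def chk (C : List (Check V X)) (w : V) : List (Check V X) := C.filter (Check.inv w)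

/-- the verdict of `w` from the first phase -/
def verdict (C : List (Check V X)) (w : V) (a : X) (h : List (Ev V)) : Bool :=
  ((chk C w).zip h).all fun p => Check.okEv a p.1 p.2

/-- the token of `w` -/
def tok (C : List (Check V X)) (w : V) (a : X) (h : List (Ev V)) : Bool :=
  verdict C w a h && (h.drop (chk C w).length).all evBit

theorem hist_phase1 {G : SimpleGraph V} (x : V → X) (C : List (Check V X))
    (hadj : ∀ c ∈ C, G.Adj c.src c.dst) (h : V → List (Ev V)) (w : V) :
    hist x h (C.map Check.instr) w = h w ++ (chk C w).map (Check.ev x w) := by
  induction C generalizing h with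
  | nil => simp [hist, chk]
  | cons c C ih =>
    have hc : c.src ≠ c.dst := (hadj c (by simp)).ne
    have h1 : hist x h ((c :: C).map Check.instr) w =
        hist x (stepH x h c.instr) (C.map Check.instr) w := rfl
    rw [h1, ih (fun c' hc' => hadj c' (by simp [hc']))]
    have h2 : stepH x h c.instr w = h w ++ ([c].filter (Check.inv w)).map (Check.ev x w) := by
      unfold stepH Check.instr
      by_cases h1 : w = c.dst
      · subst h1
        simp only [Function.update_self]
        simp [Check.inv, Check.ev, hc]
      · simp only [Function.update_of_ne h1]
        have h1' : ¬ c.dst = w := fun h => h1 h.symm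
        by_cases h2 : w = c.src
        · subst h2
          simp only [Function.update_self]
          simp [Check.inv, Check.ev]
        · rw [Function.update_of_ne h2]
          have h2' : ¬ c.src = w := fun h => h2 h.symm
          simp [Check.inv, h1', h2']
    rw [h2]
    unfold chk
    have h3 : (c :: C).filter (Check.inv w) = [c].filter (Check.inv w) ++ C.filter (Check.inv w) := by
      rw [← List.filter_append]; rfl
    rw [h3, List.map_append, List.append_assoc]

theorem verdict_append {C : List (Check V X)} {w : V} {a : X} {h : List (Ev V)}
    (hl : (chk C w).length ≤ h.length) (l : List (Ev V)) :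
    verdict C w a (h ++ l) = verdict C w a h := by
  unfold verdict
  congr 1
  have h1 : ∀ (A : List (Check V X)) (B : List (Ev V)), A.length ≤ B.length →
      A.zip (B ++ l) = A.zip B := by
    intro A
    induction A with
    | nil => intro B _; simp
    | cons a A ih =>
      intro B hB
      cases B with
      | nil => simp at hB
      | cons b B =>
        simp only [List.cons_append, List.zip_cons_cons]
        rw [ih B (by simpa using hB)]
  exact h1 _ _ hl

theorem tok_append {C : List (Check V X)} {w : V} {a : X} {h : List (Ev V)}
    (hl : (chk C w).length ≤ h.length) (e : Ev V) :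
    tok C w a (h ++ [e]) = (tok C w a h && evBit e) := by
  unfold tok
  rw [verdict_append hl, List.drop_append_of_le_length hl, List.all_append]
  simp [Bool.and_assoc]

theorem tok_phase1 (x : V → X) (C : List (Check V X)) (w : V) :
    tok C w (x w) ((chk C w).map (Check.ev x w)) = true ↔
      ∀ c ∈ C, c.dst = w → c.src ≠ w → c.f (x c.src) = c.f (x w) := by
  unfold tok
  have h1 : ((chk C w).map (Check.ev x w)).drop (chk C w).length = [] := by
    apply List.drop_of_length_le
    simp
  rw [h1]
  unfold verdict
  have h2 : (chk C w).zip ((chk C w).map (Check.ev x w)) =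
      (chk C w).map fun c => (c, Check.ev x w c) := by
    generalize chk C w = A
    induction A with
    | nil => simp
    | cons a A ih => simp [ih]
  rw [h2]
  simp only [List.all_nil, Bool.and_true, List.all_map, List.all_eq_true, Function.comp]
  constructor
  · intro h c hc hd hs
    have hmem : c ∈ chk C w := by
      unfold chk
      rw [List.mem_filter]
      exact ⟨hc, by simp [Check.inv, hd]⟩
    have h3 := h c hmem
    simp only [Check.ev, hs, if_false, Check.okEv, beq_iff_eq] at h3
    exact h3
  · intro h c hc
    unfold chk at hc
    rw [List.mem_filter] at hc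
    by_cases hs : c.src = w
    · simp [Check.ev, hs, Check.okEv]
    · have hd : c.dst = w := by
        have := hc.2
        simp only [Check.inv, hs, decide_false, Bool.false_or, decide_eq_true_eq] at this
        exact this
      simp only [Check.ev, hs, if_false, Check.okEv, beq_iff_eq]
      exact h c hc.1 hd hs

/-! ### The token walk -/

/-- the instructions of the token along a walk -/
def tokI (C : List (Check V X)) {G : SimpleGraph V} : {u v : V} → G.Walk u v → List (Instr V X)
  | _, _, SimpleGraph.Walk.nil => []
  | u, _, SimpleGraph.Walk.cons (v := w) _ p => ⟨u, w, tok C u⟩ :: tokI C p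

theorem tokI_adj (C : List (Check V X)) {G : SimpleGraph V} {u v : V} (p : G.Walk u v) :
    ∀ i ∈ tokI C p, G.Adj i.src i.dst := by
  induction p with
  | nil => simp [tokI]
  | cons h p ih =>
    intro i hi
    simp only [tokI, List.mem_cons] at hi
    rcases hi with rfl | hi
    · exact h
    · exact ih i hi

theorem tokI_length (C : List (Check V X)) {G : SimpleGraph V} {u v : V} (p : G.Walk u v) :
    (tokI C p).length = p.length := by
  induction p with
  | nil => simp [tokI]
  | cons h p ih => simp [tokI, ih]

/-- The first phase is over. -/
def Ready (C : List (Check V X)) (h : V → List (Ev V)) : Prop :=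
  ∀ w, (chk C w).length ≤ (h w).length

section Token

variable {C : List (Check V X)} {G : SimpleGraph V} {x : V → X}

theorem Ready.step {h : V → List (Ev V)} (hh : Ready C h) {i : Instr V X} (hi : i.src ≠ i.dst) :
    Ready C (stepH x h i) := by
  intro w
  rw [stepH_length hi]
  exact (hh w).trans (Nat.le_add_right _ _)

theorem tok_step {h : V → List (Ev V)} (hh : Ready C h) {u v : V} (huv : u ≠ v)
    (w : V) : tok C w (x w) (stepH x h ⟨u, v, tok C u⟩ w) =
      (tok C w (x w) (h w) && if w = v then tok C u (x u) (h u) else true) := by
  unfold stepH
  by_cases h1 : w = v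
  · subst h1
    simp only [Function.update_self, if_true]
    rw [tok_append (hh _)]
    rfl
  · simp only [Function.update_of_ne h1, h1, if_false, Bool.and_true]
    by_cases h2 : w = u
    · subst h2
      simp only [Function.update_self]
      rw [tok_append (hh _)]
      simp [evBit]
    · rw [Function.update_of_ne h2]

theorem Ready.hist {h : V → List (Ev V)} (hh : Ready C h) {u v : V} (p : G.Walk u v) :
    Ready C (hist x h (tokI C p)) := by
  induction p generalizing h with
  | nil => exact hh
  | cons hadj p ih =>
    exact ih (hh.step hadj.ne)

/-- once false, the token stays false -/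
theorem tok_mono {h : V → List (Ev V)} (hh : Ready C h) {u v : V} (p : G.Walk u v) (w : V)
    (hw : tok C w (x w) (h w) = false) : tok C w (x w) (hist x h (tokI C p) w) = false := by
  induction p generalizing h with
  | nil => exact hw
  | cons hadj p ih =>
    refine ih (hh.step hadj.ne) ?_
    rw [tok_step hh hadj.ne, hw, Bool.false_and]

theorem tok_last {h : V → List (Ev V)} (hh : Ready C h) {u v : V} (p : G.Walk u v) (w : V)
    (hwp : w ∈ p.support) (hw : tok C w (x w) (h w) = false) :
    tok C v (x v) (hist x h (tokI C p) v) = false := by
  induction p generalizing h w with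
  | nil =>
    simp only [SimpleGraph.Walk.support_nil, List.mem_singleton] at hwp
    subst hwp
    exact hw
  | @cons a b c hadj p ih =>
    rw [SimpleGraph.Walk.support_cons, List.mem_cons] at hwp
    rcases hwp with rfl | hwp
    · refine ih (hh.step hadj.ne) b (SimpleGraph.Walk.start_mem_support _) ?_
      rw [tok_step hh hadj.ne]
      simp [hw]
    · refine ih (hh.step hadj.ne) w hwp ?_
      rw [tok_step hh hadj.ne, hw, Bool.false_and]

theorem tok_all {h : V → List (Ev V)} (hh : Ready C h) {u v : V} (p : G.Walk u v)
    (hu : tok C u (x u) (h u) = false) (w : V) (hwp : w ∈ p.support) :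
    tok C w (x w) (hist x h (tokI C p) w) = false := by
  induction p generalizing h w with
  | nil =>
    simp only [SimpleGraph.Walk.support_nil, List.mem_singleton] at hwp
    subst hwp
    exact hu
  | @cons a b c hadj p ih =>
    rw [SimpleGraph.Walk.support_cons, List.mem_cons] at hwp
    rcases hwp with rfl | hwp
    · exact tok_mono hh (SimpleGraph.Walk.cons hadj p) _ hu
    · refine ih (hh.step hadj.ne) ?_ w hwp
      rw [tok_step hh hadj.ne]
      simp [hu]

theorem tok_true {h : V → List (Ev V)} (hh : Ready C h) {u v : V} (p : G.Walk u v)
    (ht : ∀ w, tok C w (x w) (h w) = true) (w : V) :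
    tok C w (x w) (hist x h (tokI C p) w) = true := by
  induction p generalizing h with
  | nil => exact ht w
  | cons hadj p ih =>
    refine ih (hh.step hadj.ne) fun w => ?_
    rw [tok_step hh hadj.ne, ht]
    simp [ht]

end Token

theorem exists_cover {G : SimpleGraph V} [Fintype V] (hG : G.Connected) (u : V) :
    ∃ (v : V) (p : G.Walk u v), ∀ w, w ∈ p.support := by
  have key : ∀ s : Finset V, ∃ (v : V) (p : G.Walk u v), ∀ w ∈ s, w ∈ p.support := by
    intro s
    induction s using Finset.induction_on with
    | empty => exact ⟨u, SimpleGraph.Walk.nil, by simp⟩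
    | insert a s _ ih =>
      obtain ⟨v, p, hp⟩ := ih
      obtain ⟨q⟩ := hG.preconnected v a
      refine ⟨a, p.append q, fun w hw => ?_⟩
      rw [SimpleGraph.Walk.mem_support_append_iff]
      rcases Finset.mem_insert.1 hw with rfl | hw
      · right; exact SimpleGraph.Walk.end_mem_support _
      · left; exact hp w hw
  obtain ⟨v, p, hp⟩ := key Finset.univ
  exact ⟨v, p, fun w => hp w (Finset.mem_univ w)⟩

/-- **Upper bound.** A sound list of one-bit checks along edges gives a protocol with only a constant
number of additional bits. -/
theorem upper_bound {G : SimpleGraph V} [Fintype V] (hG : G.Connected) :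
    ∃ K : ℕ, ∀ (X : Type) (C : List (Check V X)), (∀ c ∈ C, G.Adj c.src c.dst) →
      (∀ x : V → X, (∀ c ∈ C, c.f (x c.src) = c.f (x c.dst)) → ∀ u v, x u = x v) →
      ∃ P : Protocol V X, DecidesEq G P (C.length + K) := by
  obtain ⟨r⟩ := hG.nonempty
  obtain ⟨s, p, hp⟩ := exists_cover hG r
  obtain ⟨t, q, hq⟩ := exists_cover hG s
  refine ⟨p.length + q.length, fun X C hadj hsound => ?_⟩
  refine ⟨compile (C.map Check.instr ++ (tokI C p ++ tokI C q)) (tok C), ?_⟩
  have hlen : C.length + (p.length + q.length) =
      (C.map Check.instr ++ (tokI C p ++ tokI C q)).length := by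
    simp [tokI_length]
  rw [hlen]
  refine decides_compile ?_ ?_
  · intro i hi
    simp only [List.mem_append, List.mem_map] at hi
    rcases hi with ⟨c, hc, rfl⟩ | hi | hi
    · exact hadj c hc
    · exact tokI_adj C p i hi
    · exact tokI_adj C q i hi
  · intro x w
    have h1 : hist x (fun _ => []) (C.map Check.instr ++ (tokI C p ++ tokI C q)) =
        hist x (hist x (hist x (fun _ => []) (C.map Check.instr)) (tokI C p)) (tokI C q) := by
      simp [hist, List.foldl_append]
    rw [h1]
    set h0 := hist x (fun _ => []) (C.map Check.instr) with hh0
    have h2 : ∀ w, h0 w = (chk C w).map (Check.ev x w) := by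
      intro w
      rw [hh0, hist_phase1 x C hadj]
      simp
    have hready : Ready C h0 := by
      intro w
      rw [h2 w]
      simp
    have h3 : ∀ w, tok C w (x w) (h0 w) = true ↔
        ∀ c ∈ C, c.dst = w → c.src ≠ w → c.f (x c.src) = c.f (x w) := by
      intro w
      rw [h2 w]
      exact tok_phase1 x C w
    constructor
    · intro ht
      apply hsound
      by_contra hcon
      push Not at hcon
      obtain ⟨c, hc, hne⟩ := hcon
      have h4 : tok C c.dst (x c.dst) (h0 c.dst) = false := by
        by_contra h5
        rw [Bool.not_eq_false] at h5
        exact hne ((h3 c.dst).1 h5 c hc rfl (hadj c hc).ne)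
      have h5 := tok_last hready p c.dst (hp _) h4
      have h6 := tok_all (hready.hist p) q h5 w (hq w)
      rw [h6] at ht
      cases ht
    · intro heq
      have h4 : ∀ w, tok C w (x w) (h0 w) = true := by
        intro w
        rw [h3 w]
        intro c _ _ _
        rw [heq c.src w]
      exact tok_true (hready.hist p) q (fun w => tok_true hready p h4 w) w

end Pool.Agent.V11247.EqT
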